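import Mathlib
import Pool.Agent.W25.UN.Stm

/-!
# UN-OD: sieve sums with small primes removed
-/

set_option autoImplicit false

namespace Pool.Agent.W612.UNOneDimU

open Finset Filter Topology
open Pool.Agent.H410R2 Pool.Agent.W25.UN

/-! ## sums over subsets -/

/-- sum of logarithms -/
noncomputable def lg (a : Finset ℕ) : ℝ := ∑ p ∈ a, Real.log p

/-- shifted sum over subsets -/
noncomputable def Ph (S : Finset ℕ) (h : ℕ → ℝ) (φ : ℝ → ℝ) (s : ℝ) : ℝ :=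
  ∑ a ∈ S.powerset, (∏ p ∈ a, h p) * φ (s + lg a)

lemma lg_insert (a : Finset ℕ) (q : ℕ) (hq : q ∉ a) : lg (insert q a) = Real.log q + lg a := by
  unfold lg; rw [Finset.sum_insert hq]

lemma lg_nonneg (a : Finset ℕ) : 0 ≤ lg a :=
  Finset.sum_nonneg (fun p _ => Real.log_natCast_nonneg p)

lemma Ph_insert (S : Finset ℕ) (h : ℕ → ℝ) (φ : ℝ → ℝ) (s : ℝ) (q : ℕ) (hq : q ∉ S) :
    Ph (insert q S) h φ s = Ph S h φ s + h q * Ph S h φ (s + Real.log q) := by
  unfold Ph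
  rw [Finset.sum_powerset_insert hq, Finset.mul_sum]
  congr 1
  refine Finset.sum_congr rfl (fun a ha => ?_)
  have hqa : q ∉ a := fun h => hq (Finset.mem_powerset.mp ha h)
  rw [Finset.prod_insert hqa, lg_insert a q hqa]
  ring_nf

lemma prod_nonneg' (S a : Finset ℕ) (h : ℕ → ℝ) (h0 : ∀ p ∈ S, 0 ≤ h p) (ha : a ∈ S.powerset) :
    0 ≤ ∏ p ∈ a, h p :=
  Finset.prod_nonneg (fun p hp => h0 p (Finset.mem_powerset.mp ha hp))

lemma Ph_nonneg (S : Finset ℕ) (h : ℕ → ℝ) (φ : ℝ → ℝ) (s : ℝ) (h0 : ∀ p ∈ S, 0 ≤ h p)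
    (hs : 0 ≤ s) (hφ : ∀ x, 0 ≤ x → 0 ≤ φ x) : 0 ≤ Ph S h φ s :=
  Finset.sum_nonneg (fun a ha => mul_nonneg (prod_nonneg' S a h h0 ha)
    (hφ _ (add_nonneg hs (lg_nonneg a))))

/-- comparison of two shifted sums -/
lemma Ph_le (S : Finset ℕ) (h : ℕ → ℝ) (φ φ' : ℝ → ℝ) (s s' : ℝ) (h0 : ∀ p ∈ S, 0 ≤ h p)
    (hφ : ∀ x, 0 ≤ x → φ (s + x) ≤ φ' (s' + x)) : Ph S h φ s ≤ Ph S h φ' s' :=
  Finset.sum_le_sum (fun a ha => mul_le_mul_of_nonneg_left (hφ _ (lg_nonneg a))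
    (prod_nonneg' S a h h0 ha))

/-- upper bound for the sum over a larger set -/
lemma Ph_union_le (P : Finset ℕ) (h : ℕ → ℝ) (φ : ℝ → ℝ)
    (hφ : ∀ x y, 0 ≤ x → x ≤ y → φ y ≤ φ x) (Q : Finset ℕ) :
    (∀ p ∈ Q ∪ P, 0 ≤ h p) → Disjoint Q P →
      Ph (Q ∪ P) h φ 0 ≤ (∏ q ∈ Q, (1 + h q)) * Ph P h φ 0 := by
  induction Q using Finset.induction_on with
  | empty => intro _ _; simp
  | insert q Q hq ih =>
    intro h0 hd
    rw [Finset.disjoint_insert_left] at hd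
    have h0' : ∀ p ∈ Q ∪ P, 0 ≤ h p := fun p hp => h0 p (by
      rw [Finset.insert_union]; exact Finset.mem_insert_of_mem hp)
    have hq0 : 0 ≤ h q := h0 q (by rw [Finset.insert_union]; exact Finset.mem_insert_self _ _)
    have ih' := ih h0' hd.2
    have hqn : q ∉ Q ∪ P := by
      rw [Finset.mem_union]; push Not; exact ⟨hq, hd.1⟩
    rw [Finset.insert_union, Ph_insert _ _ _ _ _ hqn, Finset.prod_insert hq]
    have h1 : Ph (Q ∪ P) h φ (0 + Real.log q) ≤ Ph (Q ∪ P) h φ 0 := by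
      apply Ph_le _ _ _ _ _ _ h0'
      intro x hx
      apply hφ
      · linarith
      · have := Real.log_natCast_nonneg q
        linarith
    calc Ph (Q ∪ P) h φ 0 + h q * Ph (Q ∪ P) h φ (0 + Real.log q)
        ≤ Ph (Q ∪ P) h φ 0 + h q * Ph (Q ∪ P) h φ 0 := by
          have := mul_le_mul_of_nonneg_left h1 hq0
          linarith
      _ = (1 + h q) * Ph (Q ∪ P) h φ 0 := by ring
      _ ≤ (1 + h q) * ((∏ q ∈ Q, (1 + h q)) * Ph P h φ 0) :=
          mul_le_mul_of_nonneg_left ih' (by linarith)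
      _ = _ := by ring

/-- decomposition of the sum over a larger set -/
lemma Ph_union (P : Finset ℕ) (h : ℕ → ℝ) (φ : ℝ → ℝ) (Q : Finset ℕ) :
    Disjoint Q P → ∀ s, Ph (Q ∪ P) h φ s =
      ∑ b ∈ Q.powerset, (∏ q ∈ b, h q) * Ph P h φ (s + lg b) := by
  induction Q using Finset.induction_on with
  | empty => intro _ s; simp [lg]
  | insert q Q hq ih =>
    intro hd s
    rw [Finset.disjoint_insert_left] at hd
    have hqn : q ∉ Q ∪ P := by
      rw [Finset.mem_union]; push Not; exact ⟨hq, hd.1⟩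
    rw [Finset.insert_union, Ph_insert _ _ _ _ _ hqn, ih hd.2 s, ih hd.2 (s + Real.log q),
      Finset.sum_powerset_insert hq, Finset.mul_sum]
    congr 1
    refine Finset.sum_congr rfl (fun a ha => ?_)
    have hqa : q ∉ a := fun h => hq (Finset.mem_powerset.mp ha h)
    rw [Finset.prod_insert hqa, lg_insert a q hqa, ← add_assoc]
    ring

/-- the mean of the logarithm -/
lemma sum_lg_le (h : ℕ → ℝ) (Q : Finset ℕ) : (∀ p ∈ Q, 0 ≤ h p) →
    ∑ b ∈ Q.powerset, (∏ q ∈ b, h q) * lg b ≤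
      (∏ q ∈ Q, (1 + h q)) * ∑ q ∈ Q, h q * Real.log q := by
  induction Q using Finset.induction_on with
  | empty => intro _; simp [lg]
  | insert q Q hq ih =>
    intro h0
    have h0' : ∀ p ∈ Q, 0 ≤ h p := fun p hp => h0 p (Finset.mem_insert_of_mem hp)
    have hq0 : 0 ≤ h q := h0 q (Finset.mem_insert_self _ _)
    have ih' := ih h0'
    rw [Finset.sum_powerset_insert hq, Finset.prod_insert hq, Finset.sum_insert hq]
    have e1 : ∑ b ∈ Q.powerset, (∏ p ∈ insert q b, h p) * lg (insert q b) =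
        h q * (Real.log q * ∏ p ∈ Q, (1 + h p)) +
          h q * ∑ b ∈ Q.powerset, (∏ p ∈ b, h p) * lg b := by
      rw [Finset.prod_one_add, Finset.mul_sum, Finset.mul_sum, Finset.mul_sum,
        ← Finset.sum_add_distrib]
      refine Finset.sum_congr rfl (fun a ha => ?_)
      have hqa : q ∉ a := fun h => hq (Finset.mem_powerset.mp ha h)
      rw [Finset.prod_insert hqa, lg_insert a q hqa]
      ring
    rw [e1]
    have hH : 0 ≤ ∏ p ∈ Q, (1 + h p) :=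
      Finset.prod_nonneg (fun p hp => by have := h0' p hp; linarith)
    have hl := Real.log_natCast_nonneg q
    generalize (∏ p ∈ Q, (1 + h p)) = H at hH ih' ⊢
    generalize (∑ b ∈ Q.powerset, (∏ p ∈ b, h p) * lg b) = T at ih' ⊢
    generalize (∑ p ∈ Q, h p * Real.log p) = S at ih' ⊢
    have h1 : (1 + h q) * T ≤ (1 + h q) * (H * S) := mul_le_mul_of_nonneg_left ih' (by linarith)
    have h2 : 0 ≤ h q * (h q * Real.log q) * H := by positivity
    nlinarith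

/-- lower bound for the sum over a larger set -/
lemma le_Ph_union (P Q : Finset ℕ) (h : ℕ → ℝ) (φ φ1 : ℝ → ℝ) (w : ℝ) (hw : 0 < w)
    (h0 : ∀ p ∈ Q ∪ P, 0 ≤ h p) (hd : Disjoint Q P) (hφ0 : ∀ x, 0 ≤ x → 0 ≤ φ x)
    (hφ1 : ∀ x, 0 ≤ x → 0 ≤ φ1 x)
    (hφ : ∀ x t, 0 ≤ x → 0 ≤ t → t ≤ w → φ x ≤ φ1 (t + x)) :
    (1 - (∑ q ∈ Q, h q * Real.log q) / w) * ((∏ q ∈ Q, (1 + h q)) * Ph P h φ 0) ≤
      Ph (Q ∪ P) h φ1 0 := by
  have h0Q : ∀ p ∈ Q, 0 ≤ h p := fun p hp => h0 p (Finset.mem_union_left _ hp)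
  have h0P : ∀ p ∈ P, 0 ≤ h p := fun p hp => h0 p (Finset.mem_union_right _ hp)
  rw [Ph_union P h φ1 Q hd 0]
  have hP0 := Ph_nonneg P h φ 0 h0P le_rfl hφ0
  have hterm : ∀ b ∈ Q.powerset, (∏ q ∈ b, h q) * ((1 - lg b / w) * Ph P h φ 0) ≤
      (∏ q ∈ b, h q) * Ph P h φ1 (0 + lg b) := by
    intro b hb
    apply mul_le_mul_of_nonneg_left _ (prod_nonneg' Q b h h0Q hb)
    have hlb := lg_nonneg b
    rw [zero_add]
    by_cases hbw : lg b ≤ w
    · have h1 : Ph P h φ 0 ≤ Ph P h φ1 (lg b) := by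
        apply Ph_le _ _ _ _ _ _ h0P
        intro x hx
        rw [zero_add]
        exact hφ x (lg b) hx hlb hbw
      have h2 : (1 - lg b / w) * Ph P h φ 0 ≤ 1 * Ph P h φ 0 := by
        apply mul_le_mul_of_nonneg_right _ hP0
        have : 0 ≤ lg b / w := by positivity
        linarith
      linarith
    · push Not at hbw
      have h1 : 1 - lg b / w ≤ 0 := by
        have : 1 ≤ lg b / w := by rw [le_div_iff₀ hw]; linarith
        linarith
      have h2 : (1 - lg b / w) * Ph P h φ 0 ≤ 0 := mul_nonpos_of_nonpos_of_nonneg h1 hP0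
      exact h2.trans (Ph_nonneg P h φ1 _ h0P hlb hφ1)
  refine le_trans ?_ (Finset.sum_le_sum hterm)
  have e : ∑ b ∈ Q.powerset, (∏ q ∈ b, h q) * ((1 - lg b / w) * Ph P h φ 0) =
      (∏ q ∈ Q, (1 + h q)) * Ph P h φ 0 -
        (∑ b ∈ Q.powerset, (∏ q ∈ b, h q) * lg b) / w * Ph P h φ 0 := by
    rw [Finset.prod_one_add, Finset.sum_mul, Finset.sum_div, Finset.sum_mul,
      ← Finset.sum_sub_distrib]
    refine Finset.sum_congr rfl (fun a _ => ?_)
    ring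
  rw [e]
  have h3 := div_le_div_of_nonneg_right (sum_lg_le h Q h0Q) hw.le
  have h4 := mul_le_mul_of_nonneg_right h3 hP0
  have e2 : (∏ q ∈ Q, (1 + h q)) * (∑ q ∈ Q, h q * Real.log q) / w * Ph P h φ 0 =
      (∑ q ∈ Q, h q * Real.log q) / w * ((∏ q ∈ Q, (1 + h q)) * Ph P h φ 0) := by ring
  rw [e2] at h4
  linarith

/-- the function with the cut -/
noncomputable def cutf (c L : ℝ) (G : ℝ → ℝ) (x : ℝ) : ℝ := if x ≤ c * L then G (x / L) else 0

lemma SS_eq (P : Finset ℕ) (h : ℕ → ℝ) (c L : ℝ) (F : ℝ → ℝ) (hP : ∀ p ∈ P, p ≠ 0) :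
    SS P h c L F = Ph P h (cutf c L F) 0 := by
  unfold SS Ph cutf
  refine Finset.sum_congr rfl (fun a ha => ?_)
  have e : Real.log (∏ p ∈ a, (p : ℝ)) = 0 + lg a := by
    rw [Real.log_prod (fun p hp => Nat.cast_ne_zero.mpr (hP p (Finset.mem_powerset.mp ha hp))),
      zero_add]
    rfl
  rw [e]

/-! ## normalisation -/

lemma prod_lower (s : Finset ℕ) (y : ℕ → ℝ) (hy : ∀ p ∈ s, 0 ≤ y p ∧ y p ≤ 1) :
    1 - ∑ p ∈ s, y p ≤ ∏ p ∈ s, (1 - y p) ∧ ∏ p ∈ s, (1 - y p) ≤ 1 := by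
  induction s using Finset.induction_on with
  | empty => simp
  | insert q s hq ih =>
    have ih' := ih (fun p hp => hy p (Finset.mem_insert_of_mem hp))
    have hq1 := hy q (Finset.mem_insert_self _ _)
    have hnn : 0 ≤ ∏ p ∈ s, (1 - y p) := Finset.prod_nonneg (fun p hp => by
      have := hy p (Finset.mem_insert_of_mem hp); linarith)
    rw [Finset.sum_insert hq, Finset.prod_insert hq]
    generalize (∏ p ∈ s, (1 - y p)) = T at ih' hnn ⊢
    generalize (∑ p ∈ s, y p) = S at ih' ⊢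
    constructor
    · nlinarith [mul_nonneg hq1.1 (sub_nonneg.mpr ih'.2)]
    · nlinarith [mul_nonneg hq1.1 hnn]

lemma BD_pos (D : ℕ) : 0 < BD D := by
  unfold BD
  apply Finset.prod_pos
  intro p hp
  have hp2 : 2 ≤ p := (Finset.mem_filter.mp hp).2.two_le
  have hp2' : (2 : ℝ) ≤ p := by exact_mod_cast hp2
  have : 1 / (p : ℝ) ≤ 1 / 2 := one_div_le_one_div_of_le (by norm_num) hp2'
  linarith

lemma BD_split (D D' : ℕ) (h : D ≤ D') :
    BD D' = BD D * ∏ p ∈ (Ioc D D').filter Nat.Prime, (1 - 1 / (p : ℝ)) := by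
  unfold BD
  have hd : Disjoint ((Icc 1 D).filter Nat.Prime) ((Ioc D D').filter Nat.Prime) := by
    rw [Finset.disjoint_left]
    intro a ha hb
    rw [Finset.mem_filter, Finset.mem_Icc] at ha
    rw [Finset.mem_filter, Finset.mem_Ioc] at hb
    omega
  rw [← Finset.prod_union hd]
  congr 1
  ext a
  rw [Finset.mem_union, Finset.mem_filter, Finset.mem_filter, Finset.mem_filter, Finset.mem_Icc,
    Finset.mem_Icc, Finset.mem_Ioc]
  constructor
  · rintro ⟨⟨h1, h2⟩, h3⟩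
    by_cases hD : a ≤ D
    · exact Or.inl ⟨⟨h1, hD⟩, h3⟩
    · exact Or.inr ⟨⟨by omega, h2⟩, h3⟩
  · rintro (⟨⟨h1, h2⟩, h3⟩ | ⟨⟨h1, h2⟩, h3⟩)
    · exact ⟨⟨h1, by omega⟩, h3⟩
    · exact ⟨⟨by omega, h2⟩, h3⟩

/-- bounds for `h` at the primes larger than `D` -/
lemma h_bd (h : ℕ → ℝ) (C : ℝ) (D p : ℕ) (hC : 0 ≤ C) (hD : C + 2 ≤ D) (hDp : D < p)
    (hh : |h p - 1 / p| ≤ C / (p : ℝ) ^ 2) : 0 ≤ h p ∧ h p ≤ 2 / p := by
  have hDp' : (D : ℝ) < p := by exact_mod_cast hDp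
  have hp0 : (0 : ℝ) < p := by linarith
  have h1 := abs_le.mp hh
  have h2 : C / (p : ℝ) ^ 2 ≤ 1 / p := by
    rw [div_le_div_iff₀ (by positivity) hp0]
    nlinarith
  constructor
  · linarith [h1.1]
  · have : (2 : ℝ) / p = 1 / p + 1 / p := by ring
    linarith [h1.2]

lemma norm_bd (h : ℕ → ℝ) (C x : ℝ) (D D' : ℕ) (Q : Finset ℕ) (hC : 0 ≤ C) (hD : C + 2 ≤ D)
    (hDD' : D ≤ D') (hh : ∀ p : ℕ, p.Prime → D < p → |h p - 1 / p| ≤ C / (p : ℝ) ^ 2)
    (hQ : ∀ q ∈ Q, q.Prime ∧ D < q) (hW : ∀ p : ℕ, p.Prime → D < p → p ≤ D' → p ∈ Q)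
    (hb : ∑ q ∈ Q.filter (fun q => D' < q), h q ≤ x) :
    (1 - (C + 2) / D) * BD D ≤ (∏ q ∈ Q, (1 + h q)) * BD D' ∧
      (∏ q ∈ Q, (1 + h q)) * BD D' ≤ Real.exp ((C + 2) / D + x) * BD D := by
  have hD0 : (0 : ℝ) < D := by linarith
  have hD0' : D ≠ 0 := by
    intro h0; rw [h0] at hD0; simp at hD0
  have hsplit : ∏ q ∈ Q, (1 + h q) = (∏ q ∈ (Ioc D D').filter Nat.Prime, (1 + h q)) *
      ∏ q ∈ Q.filter (fun q => D' < q), (1 + h q) := by
    have hd : Disjoint ((Ioc D D').filter Nat.Prime) (Q.filter (fun q => D' < q)) := by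
      rw [Finset.disjoint_left]
      intro a ha hb
      rw [Finset.mem_filter, Finset.mem_Ioc] at ha
      rw [Finset.mem_filter] at hb
      omega
    rw [← Finset.prod_union hd]
    congr 1
    ext a
    rw [Finset.mem_union, Finset.mem_filter, Finset.mem_filter, Finset.mem_Ioc]
    constructor
    · intro ha
      have hqa := hQ a ha
      by_cases hD : a ≤ D'
      · exact Or.inl ⟨⟨hqa.2, hD⟩, hqa.1⟩
      · exact Or.inr ⟨ha, by omega⟩
    · rintro (⟨⟨h1, h2⟩, h3⟩ | ⟨h1, h2⟩)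
      · exact hW a h3 h1 h2
      · exact h1
  have hA : ∀ p ∈ (Ioc D D').filter Nat.Prime, |(1 + h p) * (1 - 1 / (p : ℝ)) - 1| ≤
      (C + 2) * ((p : ℝ) ^ 2)⁻¹ := by
    intro p hp
    rw [Finset.mem_filter, Finset.mem_Ioc] at hp
    have h1 := hh p hp.2 hp.1.1
    have h2 := h_bd h C D p hC hD hp.1.1 h1
    have hp0 : (0 : ℝ) < p := by exact_mod_cast hp.2.pos
    have e : (1 + h p) * (1 - 1 / (p : ℝ)) - 1 = (h p - 1 / p) - h p / p := by ring
    rw [e]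
    have h3 : |h p / p| ≤ 2 / (p : ℝ) ^ 2 := by
      rw [abs_of_nonneg (div_nonneg h2.1 hp0.le), pow_two, ← div_div]
      exact div_le_div_of_nonneg_right h2.2 hp0.le
    calc |(h p - 1 / p) - h p / p| ≤ |h p - 1 / p| + |h p / p| := abs_sub _ _
      _ ≤ C / (p : ℝ) ^ 2 + 2 / (p : ℝ) ^ 2 := add_le_add h1 h3
      _ = (C + 2) * ((p : ℝ) ^ 2)⁻¹ := by rw [← add_div]; rfl
  have hsum : ∑ p ∈ (Ioc D D').filter Nat.Prime, (C + 2) * ((p : ℝ) ^ 2)⁻¹ ≤ (C + 2) / D := by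
    rw [← Finset.mul_sum, div_eq_mul_inv]
    apply mul_le_mul_of_nonneg_left _ (by linarith)
    calc ∑ p ∈ (Ioc D D').filter Nat.Prime, ((p : ℝ) ^ 2)⁻¹
        ≤ ∑ p ∈ Ioc D D', ((p : ℝ) ^ 2)⁻¹ :=
          Finset.sum_le_sum_of_subset_of_nonneg (Finset.filter_subset _ _)
            (fun _ _ _ => by positivity)
      _ ≤ (D : ℝ)⁻¹ - (D' : ℝ)⁻¹ := sum_Ioc_inv_sq_le_sub hD0' hDD'
      _ ≤ (D : ℝ)⁻¹ := by
          have : (0 : ℝ) ≤ (D' : ℝ)⁻¹ := by positivity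
          linarith
  have hy1 : ∀ p ∈ (Ioc D D').filter Nat.Prime, 0 ≤ (C + 2) * ((p : ℝ) ^ 2)⁻¹ ∧
      (C + 2) * ((p : ℝ) ^ 2)⁻¹ ≤ 1 := by
    intro p hp
    rw [Finset.mem_filter, Finset.mem_Ioc] at hp
    have hDp : (D : ℝ) < p := by exact_mod_cast hp.1.1
    have hp1 : (1 : ℝ) ≤ p := by exact_mod_cast hp.2.one_lt.le
    refine ⟨by positivity, ?_⟩
    rw [← div_eq_mul_inv, div_le_one (by positivity)]
    nlinarith
  have hbig : ∀ q ∈ Q.filter (fun q => D' < q), 0 ≤ h q := by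
    intro q hq
    rw [Finset.mem_filter] at hq
    have := hQ q hq.1
    exact (h_bd h C D q hC hD this.2 (hh q this.1 this.2)).1
  have hP2lo : 1 ≤ ∏ q ∈ Q.filter (fun q => D' < q), (1 + h q) := by
    calc (1 : ℝ) = ∏ q ∈ Q.filter (fun q => D' < q), 1 := by simp
      _ ≤ _ := Finset.prod_le_prod (fun _ _ => zero_le_one) (fun q hq => by
          have := hbig q hq; linarith)
  have hP2hi : ∏ q ∈ Q.filter (fun q => D' < q), (1 + h q) ≤ Real.exp x := by
    calc ∏ q ∈ Q.filter (fun q => D' < q), (1 + h q)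
        ≤ ∏ q ∈ Q.filter (fun q => D' < q), Real.exp (h q) :=
          Finset.prod_le_prod (fun q hq => by have := hbig q hq; linarith) (fun q _ => by
            have := Real.add_one_le_exp (h q); linarith)
      _ = Real.exp (∑ q ∈ Q.filter (fun q => D' < q), h q) := (Real.exp_sum _ _).symm
      _ ≤ Real.exp x := Real.exp_le_exp.mpr hb
  have hP1 : (1 - (C + 2) / D) ≤ ∏ p ∈ (Ioc D D').filter Nat.Prime,
      ((1 + h p) * (1 - 1 / (p : ℝ))) := by
    have h1 := (prod_lower _ _ hy1).1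
    have h2 : ∏ p ∈ (Ioc D D').filter Nat.Prime, (1 - (C + 2) * ((p : ℝ) ^ 2)⁻¹) ≤
        ∏ p ∈ (Ioc D D').filter Nat.Prime, ((1 + h p) * (1 - 1 / (p : ℝ))) := by
      apply Finset.prod_le_prod
      · intro p hp; have := hy1 p hp; linarith
      · intro p hp
        have := (abs_le.mp (hA p hp)).1
        linarith
    linarith
  have hP1hi : ∏ p ∈ (Ioc D D').filter Nat.Prime, ((1 + h p) * (1 - 1 / (p : ℝ))) ≤
      Real.exp ((C + 2) / D) := by
    calc ∏ p ∈ (Ioc D D').filter Nat.Prime, ((1 + h p) * (1 - 1 / (p : ℝ)))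
        ≤ ∏ p ∈ (Ioc D D').filter Nat.Prime, Real.exp ((C + 2) * ((p : ℝ) ^ 2)⁻¹) := by
          apply Finset.prod_le_prod
          · intro p hp
            have h1 := (abs_le.mp (hA p hp)).1
            have h2 := hy1 p hp
            linarith
          · intro p hp
            have h1 := (abs_le.mp (hA p hp)).2
            have h2 := Real.add_one_le_exp ((C + 2) * ((p : ℝ) ^ 2)⁻¹)
            linarith
      _ = Real.exp (∑ p ∈ (Ioc D D').filter Nat.Prime, (C + 2) * ((p : ℝ) ^ 2)⁻¹) :=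
          (Real.exp_sum _ _).symm
      _ ≤ _ := Real.exp_le_exp.mpr hsum
  have hBD := BD_pos D
  have hP1' : 0 ≤ ∏ p ∈ (Ioc D D').filter Nat.Prime, ((1 + h p) * (1 - 1 / (p : ℝ))) := by
    refine le_trans ?_ hP1
    rw [sub_nonneg, div_le_one hD0]
    exact hD
  have e : (∏ q ∈ Q, (1 + h q)) * BD D' =
      (∏ p ∈ (Ioc D D').filter Nat.Prime, ((1 + h p) * (1 - 1 / (p : ℝ)))) *
        (∏ q ∈ Q.filter (fun q => D' < q), (1 + h q)) * BD D := by
    rw [BD_split D D' hDD', hsplit, Finset.prod_mul_distrib]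
    ring
  rw [e]
  constructor
  · apply mul_le_mul_of_nonneg_right _ hBD.le
    nlinarith
  · apply mul_le_mul_of_nonneg_right _ hBD.le
    rw [Real.exp_add]
    exact mul_le_mul hP1hi hP2hi (by linarith) (Real.exp_pos _).le

/-! ## the few large primes and the small primes -/

lemma big_bd (h : ℕ → ℝ) (C C' L : ℝ) (D D' : ℕ) (Q : Finset ℕ) (hC : 0 ≤ C) (hD : C + 2 ≤ D)
    (hL : 0 < L) (hLD : L ^ 2 ≤ (D' : ℝ))
    (hh : ∀ p : ℕ, p.Prime → D < p → |h p - 1 / p| ≤ C / (p : ℝ) ^ 2)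
    (hQ : ∀ q ∈ Q, q.Prime ∧ D < q)
    (hcard : ((Q.filter (fun q => D' < q)).card : ℝ) ≤ C' * L) :
    ∑ q ∈ Q.filter (fun q => D' < q), h q ≤ 2 * C' / L := by
  have h1 : ∀ q ∈ Q.filter (fun q => D' < q), h q ≤ 2 / L ^ 2 := by
    intro q hq
    rw [Finset.mem_filter] at hq
    have hq1 := hQ q hq.1
    refine (h_bd h C D q hC hD hq1.2 (hh q hq1.1 hq1.2)).2.trans ?_
    apply div_le_div_of_nonneg_left (by norm_num) (by positivity)
    have : (D' : ℝ) < q := by exact_mod_cast hq.2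
    linarith
  calc ∑ q ∈ Q.filter (fun q => D' < q), h q
      ≤ (Q.filter (fun q => D' < q)).card • (2 / L ^ 2) := Finset.sum_le_card_nsmul _ _ _ h1
    _ = ((Q.filter (fun q => D' < q)).card : ℝ) * (2 / L ^ 2) := by rw [nsmul_eq_mul]
    _ ≤ C' * L * (2 / L ^ 2) := mul_le_mul_of_nonneg_right hcard (by positivity)
    _ = 2 * C' / L := by field_simp

lemma kap_bd (h : ℕ → ℝ) (C C' L : ℝ) (D D' : ℕ) (Q : Finset ℕ) (hC : 0 ≤ C) (hD : C + 2 ≤ D)
    (hL : 0 < L) (hLD : L ^ 2 ≤ (D' : ℝ)) (hD1 : 1 ≤ D')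
    (hh : ∀ p : ℕ, p.Prime → D < p → |h p - 1 / p| ≤ C / (p : ℝ) ^ 2)
    (hQ : ∀ q ∈ Q, q.Prime ∧ D < q)
    (hcard : ((Q.filter (fun q => D' < q)).card : ℝ) ≤ C' * L) :
    ∑ q ∈ Q, h q * Real.log q ≤ 2 * Real.log D' * (1 + Real.log D') + 4 * C' := by
  have hD'0 : (0 : ℝ) < D' := by exact_mod_cast hD1
  have hlD : 0 ≤ Real.log D' := Real.log_natCast_nonneg D'
  rw [← Finset.sum_filter_add_sum_filter_not Q (fun q => D' < q), add_comm]
  apply add_le_add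
  · have h1 : ∀ q ∈ Q.filter (fun q => ¬ D' < q), h q * Real.log q ≤
        2 * Real.log D' * (q : ℝ)⁻¹ := by
      intro q hq
      rw [Finset.mem_filter] at hq
      have hq1 := hQ q hq.1
      have hq0 : (0 : ℝ) < q := by exact_mod_cast hq1.1.pos
      have hb := h_bd h C D q hC hD hq1.2 (hh q hq1.1 hq1.2)
      have hqD : (q : ℝ) ≤ D' := by exact_mod_cast not_lt.mp hq.2
      calc h q * Real.log q ≤ 2 / q * Real.log D' :=
            mul_le_mul hb.2 (Real.log_le_log hq0 hqD) (Real.log_natCast_nonneg q) (by positivity)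
        _ = 2 * Real.log D' * (q : ℝ)⁻¹ := by rw [div_eq_mul_inv]; ring
    refine (Finset.sum_le_sum h1).trans ?_
    rw [← Finset.mul_sum]
    apply mul_le_mul_of_nonneg_left _ (by positivity)
    have hharm : (∑ n ∈ Icc 1 D', (n : ℝ)⁻¹) ≤ 1 + Real.log D' := by
      have := harmonic_le_one_add_log D'
      rw [harmonic_eq_sum_Icc] at this
      push_cast at this
      exact this
    refine le_trans ?_ hharm
    apply Finset.sum_le_sum_of_subset_of_nonneg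
    · intro q hq
      rw [Finset.mem_filter] at hq
      have hq1 := hQ q hq.1
      rw [Finset.mem_Icc]
      exact ⟨hq1.1.one_lt.le, not_lt.mp hq.2⟩
    · intro _ _ _; positivity
  · have h1 : ∀ q ∈ Q.filter (fun q => D' < q), h q * Real.log q ≤ 4 / L := by
      intro q hq
      rw [Finset.mem_filter] at hq
      have hq1 := hQ q hq.1
      have hq0 : (0 : ℝ) < q := by exact_mod_cast hq1.1.pos
      have hb := h_bd h C D q hC hD hq1.2 (hh q hq1.1 hq1.2)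
      have hqD : (D' : ℝ) < q := by exact_mod_cast hq.2
      have hsq : L ≤ Real.sqrt q := by
        apply Real.le_sqrt_of_sq_le
        linarith
      have hsq0 : 0 < Real.sqrt q := lt_of_lt_of_le hL hsq
      have hlog : Real.log q ≤ 2 * Real.sqrt q := by
        have h2 : Real.log q = 2 * Real.log (Real.sqrt q) := by
          rw [Real.log_sqrt hq0.le]; ring
        have h3 := Real.log_le_sub_one_of_pos hsq0
        rw [h2]
        linarith
      calc h q * Real.log q ≤ 2 / q * (2 * Real.sqrt q) :=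
            mul_le_mul hb.2 hlog (Real.log_natCast_nonneg q) (by positivity)
        _ = 4 / Real.sqrt q := by
            have h4 : (q : ℝ) = Real.sqrt q * Real.sqrt q := (Real.mul_self_sqrt hq0.le).symm
            conv_lhs => rw [h4]
            rw [Real.sqrt_mul_self hsq0.le]
            field_simp
            ring
        _ ≤ 4 / L := div_le_div_of_nonneg_left (by norm_num) hL hsq
    calc ∑ q ∈ Q.filter (fun q => D' < q), h q * Real.log q
        ≤ (Q.filter (fun q => D' < q)).card • (4 / L) := Finset.sum_le_card_nsmul _ _ _ h1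
      _ = ((Q.filter (fun q => D' < q)).card : ℝ) * (4 / L) := by rw [nsmul_eq_mul]
      _ ≤ C' * L * (4 / L) := mul_le_mul_of_nonneg_right hcard (by positivity)
      _ = 4 * C' := by field_simp

/-! ## the final numerical step -/

lemma final_num (ε I g e1 e2 κ L H b b' S Sp Sp1 : ℝ) (hε : 0 < ε) (hI : 0 ≤ I)
    (he2 : e2 = ε / (8 * (I + ε + 1))) (he1 : e1 = ε / 4) (hg0 : g ≤ ε / 4)
    (hκ : κ ≤ e2) (hL : 0 < L) (hH : 0 < H) (hb : 0 < b) (hb' : 0 < b')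
    (hlo : (1 - e2) * b ≤ H * b') (hhi : H * b' ≤ (1 + e2) * b) (hS0 : 0 ≤ S)
    (hA : Sp ≤ H * S) (hB : (1 - κ) * (H * S) ≤ Sp1)
    (hSp : |Sp - b * L * I| ≤ e1 * (b * L)) (hSp1 : |Sp1 - b * L * (I + g)| ≤ e1 * (b * L)) :
    |S - b' * L * I| ≤ ε * (b' * L) := by
  have h8 : 0 < 8 * (I + ε + 1) := by positivity
  have he2pos : 0 < e2 := by rw [he2]; positivity
  have he2I : e2 * (I + ε) ≤ ε / 8 := by
    rw [he2, div_mul_eq_mul_div, div_le_div_iff₀ h8 (by norm_num)]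
    nlinarith
  have he21 : e2 ≤ 1 / 8 := by
    rw [he2, div_le_div_iff₀ h8 (by norm_num)]
    nlinarith
  have hbL : 0 < b * L := mul_pos hb hL
  have h1 := (abs_le.mp hSp).1
  have h2 := (abs_le.mp hSp1).2
  rw [abs_le]
  constructor
  · -- lower bound
    by_cases hIe : I - ε ≤ 0
    · have : b' * L * (I - ε) ≤ 0 := mul_nonpos_of_nonneg_of_nonpos (by positivity) hIe
      linarith
    · push Not at hIe
      have h3 : H * b' * (L * (I - ε)) ≤ (1 + e2) * b * (L * (I - ε)) :=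
        mul_le_mul_of_nonneg_right hhi (by positivity)
      have h4 : (1 + e2) * (I - ε) ≤ I - e1 := by
        rw [he1]; nlinarith
      have h5 : b * L * ((1 + e2) * (I - ε)) ≤ b * L * (I - e1) :=
        mul_le_mul_of_nonneg_left h4 hbL.le
      have h6 : H * (b' * L * (I - ε)) ≤ H * S := by nlinarith
      have h7 := le_of_mul_le_mul_left h6 hH
      linarith
  · -- upper bound
    have h3 : (1 - e2) * b * (L * (I + ε)) ≤ H * b' * (L * (I + ε)) :=
      mul_le_mul_of_nonneg_right hlo (by positivity)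
    have h4 : I + g + e1 ≤ (1 - e2) * ((1 - e2) * (I + ε)) := by
      rw [he1]
      nlinarith [mul_nonneg he2pos.le (mul_nonneg he2pos.le (by linarith : 0 ≤ I + ε))]
    have h5 : (1 - e2) * (H * S) ≤ (1 - κ) * (H * S) :=
      mul_le_mul_of_nonneg_right (by linarith) (by positivity)
    have h6 : (1 - e2) * (H * S) ≤ b * L * (I + g + e1) := by nlinarith
    have h7 : b * L * (I + g + e1) ≤ b * L * ((1 - e2) * ((1 - e2) * (I + ε))) :=
      mul_le_mul_of_nonneg_left h4 hbL.le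
    have h8' : (1 - e2) * ((1 - e2) * b * (L * (I + ε))) ≤ (1 - e2) * (H * b' * (L * (I + ε))) :=
      mul_le_mul_of_nonneg_left h3 (by linarith)
    have h9 : (1 - e2) * (H * S) ≤ (1 - e2) * (H * (b' * L * (I + ε))) := by nlinarith
    have h10 := le_of_mul_le_mul_left h9 (by linarith)
    have h11 := le_of_mul_le_mul_left h10 hH
    linarith

/-! ## the delayed function -/

section cut
variable {c L K δ0 : ℝ} {G : ℝ → ℝ}

lemma cut_nonneg (hL : 0 < L) (hG : ∀ t ∈ Set.Icc 0 c, 0 ≤ G t) (x : ℝ) (hx : 0 ≤ x) :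
    0 ≤ cutf c L G x := by
  unfold cutf
  split_ifs with h
  · exact hG _ ⟨by positivity, by rw [div_le_iff₀ hL]; exact h⟩
  · exact le_rfl

lemma cut_anti (hL : 0 < L) (hG : ∀ t ∈ Set.Icc 0 c, 0 ≤ G t)
    (ha : ∀ s ∈ Set.Icc 0 c, ∀ t ∈ Set.Icc 0 c, s ≤ t → G t ≤ G s) (x y : ℝ) (hx : 0 ≤ x)
    (hxy : x ≤ y) : cutf c L G y ≤ cutf c L G x := by
  by_cases hy : y ≤ c * L
  · unfold cutf
    rw [if_pos hy, if_pos (hxy.trans hy)]
    have hy0 : 0 ≤ y := hx.trans hxy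
    exact ha _ ⟨by positivity, by rw [div_le_iff₀ hL]; exact hxy.trans hy⟩ _
      ⟨by positivity, by rw [div_le_iff₀ hL]; exact hy⟩ (div_le_div_of_nonneg_right hxy hL.le)
  · have h0 : cutf c L G y = 0 := by unfold cutf; rw [if_neg hy]
    rw [h0]
    exact cut_nonneg hL hG x hx

/-- the delayed function -/
noncomputable def dly (δ0 : ℝ) (G : ℝ → ℝ) (t : ℝ) : ℝ := G (max (t - δ0) 0)

lemma dly_mem (hc : 0 < c) {t : ℝ} (ht : t ∈ Set.Icc 0 (c + δ0)) : max (t - δ0) 0 ∈ Set.Icc 0 c :=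
  ⟨le_max_right _ _, max_le (by linarith [ht.2]) hc.le⟩

lemma cut_shift (hL : 0 < L) (hc : 0 < c) (hG : ∀ t ∈ Set.Icc 0 c, 0 ≤ G t)
    (ha : ∀ s ∈ Set.Icc 0 c, ∀ t ∈ Set.Icc 0 c, s ≤ t → G t ≤ G s) (x t : ℝ) (hx : 0 ≤ x)
    (ht : 0 ≤ t) (htw : t ≤ δ0 * L) : cutf c L G x ≤ cutf (c + δ0) L (dly δ0 G) (t + x) := by
  by_cases h : x ≤ c * L
  · have h1 : t + x ≤ (c + δ0) * L := by nlinarith
    unfold cutf dly
    rw [if_pos h, if_pos h1]
    have hxL : x / L ∈ Set.Icc 0 c := ⟨by positivity, by rw [div_le_iff₀ hL]; exact h⟩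
    apply ha _ _ _ hxL
    · apply max_le _ hxL.1
      rw [sub_le_iff_le_add, div_le_iff₀ hL, add_mul, div_mul_cancel₀ _ hL.ne']
      linarith
    · exact dly_mem hc ⟨by positivity, by rw [div_le_iff₀ hL]; exact h1⟩
  · have h0 : cutf c L G x = 0 := by unfold cutf; rw [if_neg h]
    rw [h0]
    apply cut_nonneg hL _ _ (by linarith)
    intro s hs
    exact hG _ (dly_mem hc hs)

lemma lip_cont (hLip : ∀ s ∈ Set.Icc 0 c, ∀ t ∈ Set.Icc 0 c, |G s - G t| ≤ K * |s - t|) :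
    ContinuousOn G (Set.Icc 0 c) := by
  have h : LipschitzOnWith (Real.toNNReal K) G (Set.Icc 0 c) := by
    apply LipschitzOnWith.of_dist_le_mul
    intro s hs t ht
    rw [Real.dist_eq, Real.dist_eq]
    refine (hLip s hs t ht).trans ?_
    exact mul_le_mul_of_nonneg_right (Real.le_coe_toNNReal K) (abs_nonneg _)
  exact h.continuousOn

lemma dly_lip (hc : 0 < c) (hK : 0 ≤ K)
    (hLip : ∀ s ∈ Set.Icc 0 c, ∀ t ∈ Set.Icc 0 c, |G s - G t| ≤ K * |s - t|) :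
    ∀ s ∈ Set.Icc 0 (c + δ0), ∀ t ∈ Set.Icc 0 (c + δ0),
      |dly δ0 G s - dly δ0 G t| ≤ K * |s - t| := by
  intro s hs t ht
  unfold dly
  refine (hLip _ (dly_mem hc hs) _ (dly_mem hc ht)).trans ?_
  apply mul_le_mul_of_nonneg_left _ hK
  have h := abs_max_sub_max_le_abs (s - δ0) (t - δ0) 0
  refine h.trans (le_of_eq ?_)
  congr 1
  ring

lemma dly_int (hc : 0 < c) (hδ : 0 < δ0) (hK : 0 ≤ K)
    (hLip : ∀ s ∈ Set.Icc 0 c, ∀ t ∈ Set.Icc 0 c, |G s - G t| ≤ K * |s - t|) :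
    ∫ t in (0 : ℝ)..(c + δ0), dly δ0 G t = (∫ t in (0 : ℝ)..c, G t) + δ0 * G 0 := by
  have hcont := lip_cont (dly_lip (δ0 := δ0) hc hK hLip)
  have hi1 : IntervalIntegrable (dly δ0 G) MeasureTheory.volume 0 δ0 := by
    apply ContinuousOn.intervalIntegrable
    rw [Set.uIcc_of_le hδ.le]
    exact hcont.mono (Set.Icc_subset_Icc le_rfl (by linarith))
  have hi2 : IntervalIntegrable (dly δ0 G) MeasureTheory.volume δ0 (c + δ0) := by
    apply ContinuousOn.intervalIntegrable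
    rw [Set.uIcc_of_le (by linarith)]
    exact hcont.mono (Set.Icc_subset_Icc hδ.le le_rfl)
  rw [← intervalIntegral.integral_add_adjacent_intervals hi1 hi2]
  have e1 : ∫ t in (0 : ℝ)..δ0, dly δ0 G t = δ0 * G 0 := by
    have h1 : ∫ t in (0 : ℝ)..δ0, dly δ0 G t = ∫ t in (0 : ℝ)..δ0, G 0 := by
      apply intervalIntegral.integral_congr
      intro t ht
      rw [Set.uIcc_of_le hδ.le] at ht
      show G (max (t - δ0) 0) = G 0
      rw [max_eq_right (by linarith [ht.2])]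
    rw [h1, intervalIntegral.integral_const, smul_eq_mul, sub_zero]
  have e2 : ∫ t in δ0..(c + δ0), dly δ0 G t = ∫ t in (0 : ℝ)..c, G t := by
    have h1 : ∫ t in δ0..(c + δ0), dly δ0 G t = ∫ t in δ0..(c + δ0), G (t - δ0) := by
      apply intervalIntegral.integral_congr
      intro t ht
      rw [Set.uIcc_of_le (by linarith)] at ht
      show G (max (t - δ0) 0) = G (t - δ0)
      rw [max_eq_left (by linarith [ht.1])]
    rw [h1, intervalIntegral.integral_comp_sub_right (fun t => G t) δ0]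
    simp
  rw [e1, e2]
  ring

end cut

/-! ## large values of `L` -/

lemma ev_kap (B C' δ0 e : ℝ) (hδ : 0 < δ0) (he : 0 < e) : ∀ᶠ L : ℝ in atTop,
    (2 * (B * Real.log L) * (1 + B * Real.log L) + 4 * C') / (δ0 * L) ≤ e := by
  have h1 : Tendsto (fun L : ℝ => Real.log L ^ 1 / L) atTop (𝓝 0) :=
    (Real.isLittleO_pow_log_id_atTop (n := 1)).tendsto_div_nhds_zero
  have h2 : Tendsto (fun L : ℝ => Real.log L ^ 2 / L) atTop (𝓝 0) :=
    (Real.isLittleO_pow_log_id_atTop (n := 2)).tendsto_div_nhds_zero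
  have h3 : Tendsto (fun L : ℝ => L⁻¹) atTop (𝓝 0) := tendsto_inv_atTop_zero
  have h4 := ((h1.const_mul (2 * B / δ0)).add (h2.const_mul (2 * B ^ 2 / δ0))).add
    (h3.const_mul (4 * C' / δ0))
  rw [mul_zero, mul_zero, mul_zero, add_zero, add_zero] at h4
  have h5 := (tendsto_order.mp h4).2 e he
  filter_upwards [h5, eventually_gt_atTop 0] with L hL hL0
  refine le_trans (le_of_eq ?_) hL.le
  field_simp

lemma ev_exp (B a : ℝ) (ha : 0 < a) : ∀ᶠ L : ℝ in atTop, L ^ B ≤ Real.exp (a * L) := by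
  have h1 := tendsto_rpow_mul_exp_neg_mul_atTop_nhds_zero B a ha
  have h2 := (tendsto_order.mp h1).2 1 one_pos
  filter_upwards [h2] with L hL
  have h3 : Real.exp (-a * L) = (Real.exp (a * L))⁻¹ := by
    rw [← Real.exp_neg]; congr 1; ring
  rw [h3, ← div_eq_mul_inv, div_lt_one (Real.exp_pos _)] at hL
  exact hL.le

/-! ## decreasing functions -/

/-- the primes added to `P` -/
noncomputable def win (D : ℕ) (y : ℝ) : Finset ℕ :=
  (Icc 1 ⌊y⌋₊).filter (fun p => p.Prime ∧ D < p)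

lemma mem_win (D : ℕ) (y : ℝ) (p : ℕ) : p ∈ win D y ↔ p.Prime ∧ D < p ∧ (p : ℝ) ≤ y := by
  unfold win
  rw [Finset.mem_filter, Finset.mem_Icc]
  constructor
  · rintro ⟨⟨h1, h2⟩, h3, h4⟩
    exact ⟨h3, h4, (Nat.le_floor_iff' h3.ne_zero).mp h2⟩
  · rintro ⟨h1, h2, h3⟩
    exact ⟨⟨h1.one_lt.le, (Nat.le_floor_iff' h1.ne_zero).mpr h3⟩, h1, h2⟩

lemma core (hOD : OneDim) (C c K : ℝ) (G : ℝ → ℝ) (hc : 0 < c)
    (hG : ∀ t ∈ Set.Icc 0 c, 0 ≤ G t ∧ G t ≤ K)
    (hLip : ∀ s ∈ Set.Icc 0 c, ∀ t ∈ Set.Icc 0 c, |G s - G t| ≤ K * |s - t|)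
    (ha : ∀ s ∈ Set.Icc 0 c, ∀ t ∈ Set.Icc 0 c, s ≤ t → G t ≤ G s)
    (h : ℕ → ℝ) (D₀ : ℕ) (hh : ∀ p : ℕ, p.Prime → D₀ < p → |h p - 1 / p| ≤ C / (p : ℝ) ^ 2)
    (ε B C' δ : ℝ) (hε : 0 < ε) (hδ : 0 < δ) :
    ∀ᶠ L : ℝ in atTop, ∀ (D' : ℕ) (Cl P : Finset ℕ),
    L ^ 2 ≤ (D' : ℝ) → (D' : ℝ) ≤ L ^ B → (Cl.card : ℝ) ≤ C' * L → (∀ p ∈ P, p.Prime ∧ D' < p) →
    (∀ p : ℕ, p.Prime → D' < p → (p : ℝ) ≤ Real.exp ((c + δ) * L) → p ∉ Cl → p ∈ P) →
      |SS P h c L G - BD D' * L * ∫ t in (0 : ℝ)..c, G t| ≤ ε * (BD D' * L) := by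
  have h0c : (0 : ℝ) ∈ Set.Icc 0 c := ⟨le_rfl, hc.le⟩
  have hK : 0 ≤ K := (hG 0 h0c).1.trans (hG 0 h0c).2
  have hG0 : ∀ t ∈ Set.Icc 0 c, 0 ≤ G t := fun t ht => (hG t ht).1
  have hC : 0 ≤ C := by
    obtain ⟨p, hp1, hp2⟩ := Nat.exists_infinite_primes (D₀ + 1)
    have h1 := (abs_nonneg _).trans (hh p hp2 (by omega))
    have hp0 : (0 : ℝ) < (p : ℝ) ^ 2 := by
      have : (0 : ℝ) < p := by exact_mod_cast hp2.pos
      positivity
    by_contra hneg
    push Not at hneg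
    have := div_neg_of_neg_of_pos hneg hp0
    linarith
  -- the delay
  obtain ⟨δ0, hδ0, hδ0δ, hδ0G⟩ : ∃ δ0 : ℝ, 0 < δ0 ∧ δ0 ≤ δ ∧ δ0 * G 0 ≤ ε / 4 := by
    have hK1 : 0 < 4 * (K + 1) := by linarith
    refine ⟨min δ (ε / (4 * (K + 1))), lt_min hδ (by positivity), min_le_left _ _, ?_⟩
    have h1 : min δ (ε / (4 * (K + 1))) * G 0 ≤ ε / (4 * (K + 1)) * (K + 1) :=
      mul_le_mul (min_le_right _ _) (by linarith [(hG 0 h0c).2]) (hG 0 h0c).1 (by positivity)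
    refine h1.trans (le_of_eq ?_)
    field_simp
  obtain ⟨I, hI⟩ : ∃ I, I = ∫ t in (0 : ℝ)..c, G t := ⟨_, rfl⟩
  have hI0 : 0 ≤ I := by
    rw [hI]
    exact intervalIntegral.integral_nonneg hc.le hG0
  obtain ⟨e2, he2⟩ : ∃ e2, e2 = ε / (8 * (I + ε + 1)) := ⟨_, rfl⟩
  have he2pos : 0 < e2 := by rw [he2]; positivity
  have he21 : e2 ≤ 1 := by
    rw [he2, div_le_one (by positivity)]
    linarith
  obtain ⟨e1, he1⟩ : ∃ e1, e1 = ε / 4 := ⟨_, rfl⟩
  have he1pos : 0 < e1 := by rw [he1]; positivity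
  have hc1 : 0 < c + δ0 := by linarith
  have hGd : ∀ t ∈ Set.Icc 0 (c + δ0), 0 ≤ dly δ0 G t ∧ dly δ0 G t ≤ K :=
    fun t ht => hG _ (dly_mem hc ht)
  obtain ⟨D1, hD1⟩ := hOD C c K G hc hG hLip e1 he1pos
  obtain ⟨D2, hD2⟩ := hOD C (c + δ0) K (dly δ0 G) hc1 hGd (dly_lip hc hK hLip) e1 he1pos
  -- the constant level
  obtain ⟨D, hDD1, hDD2, hDD0, hDC, hDe⟩ : ∃ D : ℕ, D1 ≤ D ∧ D2 ≤ D ∧ D₀ ≤ D ∧ C + 2 ≤ D ∧
      4 * (C + 2) / e2 ≤ D := by
    refine ⟨max (max D1 D2) (max D₀ (max ⌈C + 2⌉₊ ⌈4 * (C + 2) / e2⌉₊)), ?_, ?_, ?_, ?_, ?_⟩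
    · exact (le_max_left _ _).trans (le_max_left _ _)
    · exact (le_max_right _ _).trans (le_max_left _ _)
    · exact (le_max_left _ _).trans (le_max_right _ _)
    · refine (Nat.le_ceil _).trans (Nat.cast_le.mpr ?_)
      exact ((le_max_left _ _).trans (le_max_right _ _)).trans (le_max_right _ _)
    · refine (Nat.le_ceil _).trans (Nat.cast_le.mpr ?_)
      exact ((le_max_right _ _).trans (le_max_right _ _)).trans (le_max_right _ _)
  have hD0 : (0 : ℝ) < D := by linarith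
  have hhD : ∀ p : ℕ, p.Prime → D < p → |h p - 1 / p| ≤ C / (p : ℝ) ^ 2 :=
    fun p hp hDp => hh p hp (by omega)
  have hCD : (C + 2) / D ≤ e2 / 4 := by
    rw [div_le_iff₀ he2pos] at hDe
    rw [div_le_iff₀ hD0]
    linarith
  obtain ⟨L1, hL1⟩ := hD1 D hDD1 h hhD
  obtain ⟨L2, hL2⟩ := hD2 D hDD2 h hhD
  have hev5 : ∀ᶠ L : ℝ in atTop, 2 * C' / L ≤ e2 / 4 := by
    have h3 : Tendsto (fun L : ℝ => 2 * C' * L⁻¹) atTop (𝓝 0) := by
      have := (tendsto_inv_atTop_zero (𝕜 := ℝ)).const_mul (2 * C')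
      rwa [mul_zero] at this
    have h4 := (tendsto_order.mp h3).2 (e2 / 4) (by positivity)
    filter_upwards [h4] with L hL
    rw [div_eq_mul_inv]
    exact hL.le
  filter_upwards [eventually_ge_atTop L1, eventually_ge_atTop L2, eventually_gt_atTop 1,
    ev_exp B (c + δ) (by linarith), ev_kap B C' δ0 e2 hδ0 he2pos, hev5,
    eventually_ge_atTop (D : ℝ)] with L g1 g2 g3 g4 g5 g6 g7
  intro D' Cl P hLD hDL hCl hP hPc
  have hL0 : 0 < L := by linarith
  have hDD' : D ≤ D' := by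
    have h1 : (D : ℝ) ≤ D' := by nlinarith
    exact_mod_cast h1
  have hD'1 : 1 ≤ D' := by
    have h1 : (1 : ℝ) ≤ D' := by nlinarith
    exact_mod_cast h1
  have hC' : 0 ≤ C' := by
    have h1 : (0 : ℝ) ≤ C' * L := (Nat.cast_nonneg _).trans hCl
    by_contra hneg
    push Not at hneg
    have := mul_neg_of_neg_of_pos hneg hL0
    linarith
  obtain ⟨Q, hQ⟩ : ∃ Q, Q = win D (Real.exp ((c + δ) * L)) \ P := ⟨_, rfl⟩
  have hQmem : ∀ q, q ∈ Q ↔ (q.Prime ∧ D < q ∧ (q : ℝ) ≤ Real.exp ((c + δ) * L)) ∧ q ∉ P := by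
    intro q
    rw [hQ, Finset.mem_sdiff, mem_win]
  have hQ1 : ∀ q ∈ Q, q.Prime ∧ D < q := fun q hq =>
    ⟨((hQmem q).mp hq).1.1, ((hQmem q).mp hq).1.2.1⟩
  have hdisj : Disjoint Q P := by rw [hQ]; exact Finset.sdiff_disjoint
  have hall : ∀ p ∈ Q ∪ P, p.Prime ∧ D < p := by
    intro p hp
    rcases Finset.mem_union.mp hp with hp | hp
    · exact hQ1 p hp
    · exact ⟨(hP p hp).1, lt_of_le_of_lt hDD' (hP p hp).2⟩
  have h0 : ∀ p ∈ Q ∪ P, 0 ≤ h p := fun p hp =>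
    (h_bd h C D p hC hDC (hall p hp).2 (hhD p (hall p hp).1 (hall p hp).2)).1
  have hwin : ∀ y : ℝ, y ≤ Real.exp ((c + δ) * L) → IsWin D y (Q ∪ P) := by
    intro y hy
    refine ⟨hall, fun p hp hDp hpy => ?_⟩
    by_cases hpP : p ∈ P
    · exact Finset.mem_union_right _ hpP
    · exact Finset.mem_union_left _ ((hQmem p).mpr ⟨⟨hp, hDp, hpy.trans hy⟩, hpP⟩)
  have hwin1 : IsWin D (Real.exp (c * L)) (Q ∪ P) :=
    hwin _ (Real.exp_le_exp.mpr (by nlinarith))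
  have hwin2 : IsWin D (Real.exp ((c + δ0) * L)) (Q ∪ P) :=
    hwin _ (Real.exp_le_exp.mpr (by nlinarith))
  have hW : ∀ p : ℕ, p.Prime → D < p → p ≤ D' → p ∈ Q := by
    intro p hp hDp hpD
    refine (hQmem p).mpr ⟨⟨hp, hDp, ?_⟩, fun hpP => ?_⟩
    · have h1 : (p : ℝ) ≤ D' := by exact_mod_cast hpD
      exact h1.trans (hDL.trans g4)
    · have := (hP p hpP).2
      omega
  have hcard : ((Q.filter (fun q => D' < q)).card : ℝ) ≤ C' * L := by
    refine le_trans ?_ hCl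
    norm_cast
    apply Finset.card_le_card
    intro q hq
    rw [Finset.mem_filter] at hq
    have hq1 := (hQmem q).mp hq.1
    by_contra hcon
    exact hq1.2 (hPc q hq1.1.1 hq.2 hq1.1.2.2 hcon)
  have hbig := big_bd h C C' L D D' Q hC hDC hL0 hLD hhD hQ1 hcard
  have hkap := kap_bd h C C' L D D' Q hC hDC hL0 hLD hD'1 hhD hQ1 hcard
  have hnorm := norm_bd h C (2 * C' / L) D D' Q hC hDC hDD' hhD hQ1 hW hbig
  have hlogD : Real.log D' ≤ B * Real.log L := by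
    have hD'0 : (0 : ℝ) < D' := by exact_mod_cast hD'1
    have h1 := Real.log_le_log hD'0 hDL
    rwa [Real.log_rpow hL0] at h1
  have hlD0 : 0 ≤ Real.log D' := Real.log_natCast_nonneg D'
  obtain ⟨κ, hκ⟩ : ∃ κ, κ = (∑ q ∈ Q, h q * Real.log q) / (δ0 * L) := ⟨_, rfl⟩
  have hκe : κ ≤ e2 := by
    rw [hκ]
    refine le_trans ?_ g5
    apply div_le_div_of_nonneg_right _ (by positivity)
    refine hkap.trans ?_
    have h1 : 2 * Real.log D' * (1 + Real.log D') ≤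
        2 * (B * Real.log L) * (1 + B * Real.log L) := by
      apply mul_le_mul _ _ (by linarith) (by linarith)
      · linarith
      · linarith
    linarith
  have hH : 0 < ∏ q ∈ Q, (1 + h q) :=
    Finset.prod_pos (fun q hq => by
      have := h0 q (Finset.mem_union_left _ hq); linarith)
  have hA := Ph_union_le P h (cutf c L G)
    (fun x y hx hxy => cut_anti hL0 hG0 ha x y hx hxy) Q h0 hdisj
  have hBB := le_Ph_union P Q h (cutf c L G) (cutf (c + δ0) L (dly δ0 G)) (δ0 * L)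
    (by positivity) h0 hdisj (fun x hx => cut_nonneg hL0 hG0 x hx)
    (fun x hx => cut_nonneg hL0 (fun t ht => (hGd t ht).1) x hx)
    (fun x t hx ht htw => cut_shift hL0 hc hG0 ha x t hx ht htw)
  rw [← hκ] at hBB
  have hne : ∀ p ∈ Q ∪ P, p ≠ 0 := fun p hp => (hall p hp).1.ne_zero
  have hneP : ∀ p ∈ P, p ≠ 0 := fun p hp => (hP p hp).1.ne_zero
  rw [← SS_eq (Q ∪ P) h c L G hne, ← SS_eq P h c L G hneP] at hA
  rw [← SS_eq (Q ∪ P) h (c + δ0) L (dly δ0 G) hne, ← SS_eq P h c L G hneP] at hBB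
  have hS0 : 0 ≤ SS P h c L G := by
    rw [SS_eq P h c L G hneP]
    exact Ph_nonneg P h _ 0 (fun p hp => h0 p (Finset.mem_union_right _ hp)) le_rfl
      (fun x hx => cut_nonneg hL0 hG0 x hx)
  have hr1 := hL1 L g1 (Q ∪ P) hwin1
  have hr2 := hL2 L g2 (Q ∪ P) hwin2
  rw [dly_int hc hδ0 hK hLip, ← hI] at hr2
  rw [← hI] at hr1 ⊢
  have hbD := BD_pos D
  have hbD' := BD_pos D'
  have hlo : (1 - e2) * BD D ≤ (∏ q ∈ Q, (1 + h q)) * BD D' := by
    refine le_trans ?_ hnorm.1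
    apply mul_le_mul_of_nonneg_right _ hbD.le
    linarith
  have hhi : (∏ q ∈ Q, (1 + h q)) * BD D' ≤ (1 + e2) * BD D := by
    refine hnorm.2.trans ?_
    apply mul_le_mul_of_nonneg_right _ hbD.le
    have h1 : (C + 2) / D + 2 * C' / L ≤ e2 / 2 := by linarith
    refine (Real.exp_le_exp.mpr h1).trans ?_
    have h2 := Real.exp_bound_div_one_sub_of_interval (x := e2 / 2) (by positivity) (by linarith)
    refine h2.trans ?_
    rw [div_le_iff₀ (by linarith)]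
    nlinarith
  exact final_num ε I (δ0 * G 0) e1 e2 κ L _ (BD D) (BD D') _ _ _ hε hI0 he2 he1 hδ0G hκe hL0
    hH hbD hbD' hlo hhi hS0 hA hBB hr1 hr2

/-! ## general functions -/

lemma SS_sub (P : Finset ℕ) (h : ℕ → ℝ) (c L : ℝ) (F1 F2 : ℝ → ℝ) :
    SS P h c L (fun t => F1 t - F2 t) = SS P h c L F1 - SS P h c L F2 := by
  unfold SS
  rw [← Finset.sum_sub_distrib]
  refine Finset.sum_congr rfl (fun a _ => ?_)
  split_ifs <;> ring

theorem main (hOD : OneDim) : OneDimU := by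
  intro C c K F hc hF hLip h D₀ hh ε B C' δ hε hδ
  have h0c : (0 : ℝ) ∈ Set.Icc 0 c := ⟨le_rfl, hc.le⟩
  have hK : 0 ≤ K := (hF 0 h0c).1.trans (hF 0 h0c).2
  obtain ⟨F1, hF1⟩ : ∃ F1 : ℝ → ℝ, ∀ t, F1 t = F t + K * (c - t) := ⟨_, fun t => rfl⟩
  obtain ⟨F2, hF2⟩ : ∃ F2 : ℝ → ℝ, ∀ t, F2 t = K * (c - t) := ⟨_, fun t => rfl⟩
  have hKc : 0 ≤ K * c := by positivity
  have c1 := core hOD C c (2 * K + K * c) F1 hc
    (fun t ht => by
      have h1 := hF t ht
      have h2 : 0 ≤ K * (c - t) := mul_nonneg hK (by linarith [ht.2])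
      have h3 : 0 ≤ K * t := mul_nonneg hK ht.1
      rw [hF1]
      constructor <;> nlinarith)
    (fun s hs t ht => by
      have h1 := hLip s hs t ht
      rw [hF1, hF1]
      have e : F s + K * (c - s) - (F t + K * (c - t)) = (F s - F t) - K * (s - t) := by ring
      rw [e]
      refine (abs_sub _ _).trans ?_
      rw [abs_mul, abs_of_nonneg hK]
      have := abs_nonneg (s - t)
      nlinarith [mul_nonneg hKc this])
    (fun s hs t ht hst => by
      have h1 := (abs_le.mp (hLip t ht s hs)).2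
      rw [abs_of_nonneg (sub_nonneg.mpr hst)] at h1
      rw [hF1, hF1]
      linarith)
    h D₀ hh (ε / 2) B C' δ (by positivity) hδ
  have c2 := core hOD C c (2 * K + K * c) F2 hc
    (fun t ht => by
      have h2 : 0 ≤ K * (c - t) := mul_nonneg hK (by linarith [ht.2])
      have h3 : 0 ≤ K * t := mul_nonneg hK ht.1
      rw [hF2]
      constructor <;> nlinarith)
    (fun s hs t ht => by
      rw [hF2, hF2]
      have e : K * (c - s) - K * (c - t) = - (K * (s - t)) := by ring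
      rw [e, abs_neg, abs_mul, abs_of_nonneg hK]
      have := abs_nonneg (s - t)
      nlinarith [mul_nonneg hKc this, mul_nonneg hK this])
    (fun s hs t ht hst => by
      rw [hF2, hF2]
      nlinarith)
    h D₀ hh (ε / 2) B C' δ (by positivity) hδ
  have hcF : ContinuousOn F (Set.Icc 0 c) := lip_cont hLip
  have hiF : IntervalIntegrable F MeasureTheory.volume 0 c := by
    apply ContinuousOn.intervalIntegrable
    rw [Set.uIcc_of_le hc.le]
    exact hcF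
  have hi2 : IntervalIntegrable (fun t => K * (c - t)) MeasureTheory.volume 0 c := by
    apply Continuous.intervalIntegrable
    fun_prop
  have hint : ∫ t in (0 : ℝ)..c, F t = (∫ t in (0 : ℝ)..c, F1 t) - ∫ t in (0 : ℝ)..c, F2 t := by
    have e1 : F1 = fun t => F t + K * (c - t) := funext hF1
    have e2 : F2 = fun t => K * (c - t) := funext hF2
    rw [e1, e2, intervalIntegral.integral_add hiF hi2]
    ring
  have hFeq : F = fun t => F1 t - F2 t := by
    funext t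
    rw [hF1, hF2]
    ring
  filter_upwards [c1, c2] with L h1 h2
  intro D' Cl P g1 g2 g3 g4 g5
  have k1 := h1 D' Cl P g1 g2 g3 g4 g5
  have k2 := h2 D' Cl P g1 g2 g3 g4 g5
  have hSS : SS P h c L F = SS P h c L F1 - SS P h c L F2 := by
    conv_lhs => rw [hFeq]
    exact SS_sub P h c L F1 F2
  rw [hSS, hint]
  have e : SS P h c L F1 - SS P h c L F2 -
      BD D' * L * ((∫ t in (0 : ℝ)..c, F1 t) - ∫ t in (0 : ℝ)..c, F2 t) =
      (SS P h c L F1 - BD D' * L * ∫ t in (0 : ℝ)..c, F1 t) -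
        (SS P h c L F2 - BD D' * L * ∫ t in (0 : ℝ)..c, F2 t) := by ring
  rw [e]
  refine (abs_sub _ _).trans ?_
  linarith

end Pool.Agent.W612.UNOneDimU
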