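import Pool.Agent.W960.HC.Defs
import Pool.Agent.H709R2.Cut

/-! Project HC (helper960), part C: isolated closed orbits. -/

set_option autoImplicit false

open Set Topology Filter MeasureTheory

namespace Pool.Agent.W612.HC

open Pool.Agent.W960.HC

section et

lemma kp_lt {u v : ℝ} (hu : 0 ≤ u) (huv : u < v) : kp v < kp u := by
  unfold kp
  have h1 : u ^ 2 < v ^ 2 := by nlinarith
  have h2 : (v ^ 2 - u ^ 2) + 1 < Real.exp (v ^ 2 - u ^ 2) :=
    Real.add_one_lt_exp (by linarith)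
  have h3 : Real.exp (-u ^ 2) = Real.exp (-v ^ 2) * Real.exp (v ^ 2 - u ^ 2) := by
    rw [← Real.exp_add]; congr 1; ring
  have h4 := Real.exp_pos (-v ^ 2)
  have h5 : 1 + v ^ 2 < Real.exp (v ^ 2 - u ^ 2) * (1 + u ^ 2) := by
    have h6 : ((v ^ 2 - u ^ 2) + 1) * (1 + u ^ 2) < Real.exp (v ^ 2 - u ^ 2) * (1 + u ^ 2) :=
      mul_lt_mul_of_pos_right h2 (by positivity)
    have h7 : 0 ≤ (v ^ 2 - u ^ 2) * u ^ 2 := mul_nonneg (by linarith) (sq_nonneg u)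
    nlinarith
  rw [h3]
  calc Real.exp (-v ^ 2) * (1 + v ^ 2) < Real.exp (-v ^ 2) *
        (Real.exp (v ^ 2 - u ^ 2) * (1 + u ^ 2)) := mul_lt_mul_of_pos_left h5 h4
    _ = _ := by ring

lemma kp_zero : kp 0 = 1 := by simp [kp]

lemma kp_le {u : ℝ} (hu : 0 ≤ u) : kp u ≤ 1 := by
  rcases hu.eq_or_lt with h | h
  · rw [← h, kp_zero]
  · have := kp_lt le_rfl h
    rw [kp_zero] at this
    exact this.le

lemma et_strict : StrictMonoOn et (Ici 0) := by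
  intro u hu v hv huv
  unfold et
  have h1 := kp_le (mem_Ici.1 hu)
  have h2 := kp_lt (mem_Ici.1 hu) huv
  exact Real.sqrt_lt_sqrt (by linarith) (by linarith)

lemma et_cont : Continuous et := by
  unfold et kp
  fun_prop

lemma et_pos {u : ℝ} (hu : 0 < u) : 0 < et u := by
  have h := kp_lt le_rfl hu
  rw [kp_zero] at h
  exact Real.sqrt_pos.2 (by linarith)

end et

section field

variable {a c ε : ℝ}

lemma fld_neg (a c ε : ℝ) (p : ℝ × ℝ) : fld a c ε (-p) = -fld a c ε p := by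
  unfold fld
  ext
  · simp
  · simp
    ring

lemma fld_smooth (a c ε : ℝ) : ContDiff ℝ 2 (fld a c ε) := by
  unfold fld
  fun_prop

/-- uniqueness of solutions -/
lemma uniq {F : ℝ × ℝ → ℝ × ℝ} (hF : ContDiff ℝ 2 F) {f g : ℝ → ℝ × ℝ} {α β : ℝ}
    (hf : ∀ t ∈ Icc α β, HasDerivAt f (F (f t)) t) (hg : ∀ t ∈ Icc α β, HasDerivAt g (F (g t)) t)
    {t₀ : ℝ} (ht₀ : t₀ ∈ Icc α β) (h : f t₀ = g t₀) : ∀ t ∈ Icc α β, f t = g t := by
  have cf : ContinuousOn f (Icc α β) := fun t ht => (hf t ht).continuousAt.continuousWithinAt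
  have cg : ContinuousOn g (Icc α β) := fun t ht => (hg t ht).continuousAt.continuousWithinAt
  have hcomp : IsCompact (f '' Icc α β ∪ g '' Icc α β) :=
    (isCompact_Icc.image_of_continuousOn cf).union (isCompact_Icc.image_of_continuousOn cg)
  obtain ⟨R, hR⟩ := hcomp.isBounded.exists_norm_le
  obtain ⟨Z, hZ, ⟨K, hK⟩, -, hZF⟩ := H709R2.exists_cutoff (F := F) hF R
  have ef : ∀ t ∈ Icc α β, HasDerivAt f (Z (f t)) t := by
    intro t ht
    rw [(hZF (f t) (hR _ (Or.inl ⟨t, ht, rfl⟩))).eq_of_nhds]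
    exact hf t ht
  have eg : ∀ t ∈ Icc α β, HasDerivAt g (Z (g t)) t := by
    intro t ht
    rw [(hZF (g t) (hR _ (Or.inr ⟨t, ht, rfl⟩))).eq_of_nhds]
    exact hg t ht
  have hl : EqOn f g (Icc α t₀) := by
    have hs : Icc α t₀ ⊆ Icc α β := Icc_subset_Icc_right ht₀.2
    exact ODE_solution_unique_of_mem_Icc_left (v := fun _ => Z) (s := fun _ => univ) (K := K)
      (fun t _ => hK.lipschitzOnWith) (cf.mono hs)
      (fun t ht => (ef t (hs (Ioc_subset_Icc_self ht))).hasDerivWithinAt) (fun t _ => mem_univ _)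
      (cg.mono hs) (fun t ht => (eg t (hs (Ioc_subset_Icc_self ht))).hasDerivWithinAt)
      (fun t _ => mem_univ _) h
  have hr : EqOn f g (Icc t₀ β) := by
    have hs : Icc t₀ β ⊆ Icc α β := Icc_subset_Icc_left ht₀.1
    exact ODE_solution_unique_of_mem_Icc_right (v := fun _ => Z) (s := fun _ => univ) (K := K)
      (fun t _ => hK.lipschitzOnWith) (cf.mono hs)
      (fun t ht => (ef t (hs (Ico_subset_Icc_self ht))).hasDerivWithinAt) (fun t _ => mem_univ _)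
      (cg.mono hs) (fun t ht => (eg t (hs (Ico_subset_Icc_self ht))).hasDerivWithinAt)
      (fun t _ => mem_univ _) h
  intro t ht
  rcases le_total t t₀ with h1 | h1
  · exact hl ⟨ht.1, h1⟩
  · exact hr ⟨h1, ht.2⟩

/-- a solution which meets a closed orbit stays in it -/
lemma stay {F : ℝ × ℝ → ℝ × ℝ} (hF : ContDiff ℝ 2 F) {D : Set (ℝ × ℝ)} (hD : D ∈ Closed F)
    {f : ℝ → ℝ × ℝ} {α β : ℝ} (hf : ∀ t ∈ Icc α β, HasDerivAt f (F (f t)) t)
    {t₁ t₂ : ℝ} (h1 : t₁ ∈ Icc α β) (h2 : t₂ ∈ Icc α β) (h : f t₁ ∈ D) : f t₂ ∈ D := by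
  obtain ⟨γ, T, hT, hγ, hp, -, rfl⟩ := hD
  obtain ⟨s, hs⟩ := h
  have e1 : ∀ t ∈ Icc α β, HasDerivAt (fun t => γ (t + (s - t₁))) (F (γ (t + (s - t₁)))) t :=
    fun t _ => (hγ (t + (s - t₁))).comp_add_const t (s - t₁)
  have := uniq hF hf e1 h1 (by
    rw [← hs]
    congr 1
    ring) t₂ h2
  exact ⟨t₂ + (s - t₁), this.symm⟩

/-- a closed orbit together with its reflection -/
def Dh (D : Set (ℝ × ℝ)) : Set (ℝ × ℝ) := {z | z ∈ D ∨ -z ∈ D}

lemma Dh_neg {D : Set (ℝ × ℝ)} {z : ℝ × ℝ} (h : z ∈ Dh D) : -z ∈ Dh D := by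
  rcases h with h | h
  · right
    rwa [neg_neg]
  · exact Or.inl h

lemma neg_sol {f : ℝ → ℝ × ℝ} {t : ℝ} (h : HasDerivAt f (fld a c ε (f t)) t) :
    HasDerivAt (fun t => -f t) (fld a c ε (-f t)) t := by
  rw [fld_neg]
  exact h.neg

lemma stayDh {D : Set (ℝ × ℝ)} (hD : D ∈ Closed (fld a c ε))
    {f : ℝ → ℝ × ℝ} {α β : ℝ} (hf : ∀ t ∈ Icc α β, HasDerivAt f (fld a c ε (f t)) t)
    {t₁ t₂ : ℝ} (h1 : t₁ ∈ Icc α β) (h2 : t₂ ∈ Icc α β) (h : f t₁ ∈ Dh D) : f t₂ ∈ Dh D := by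
  rcases h with h | h
  · exact Or.inl (stay (fld_smooth a c ε) hD hf h1 h2 h)
  · exact Or.inr (stay (fld_smooth a c ε) hD (f := fun t => -f t) (fun t ht => neg_sol (hf t ht))
      h1 h2 h)

lemma Dh_closed {D : Set (ℝ × ℝ)} (hD : D ∈ Closed (fld a c ε)) : IsClosed (Dh D) := by
  have h1 : IsClosed D := by
    obtain ⟨γ, T, hT, hγ, hp, -, rfl⟩ := hD
    have q : Function.Periodic γ T := hp
    have cγ : Continuous γ := continuous_iff_continuousAt.2 fun t => (hγ t).continuousAt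
    exact (q.compact_of_continuous hT.ne' cγ).isClosed
  exact h1.union (h1.preimage continuous_neg)

end field

section abs

lemma right {f g : ℝ → ℝ} {X b : ℝ} (hf : ContinuousOn f (Icc X b))
    (hg : ContinuousOn g (Icc X b)) (mf : StrictMonoOn f (Icc X b)) (mg : StrictMonoOn g (Icc X b))
    (h0 : f X = g X) (hne : ∀ x ∈ Ioc X b, f x ≠ g x) {S : Set ℝ} (hS : IsClosed S)
    (hfg : ∀ x ∈ Icc X b, ∀ x' ∈ Icc X b, x ∈ S → (f x' = g x ∨ g x' = f x) → x' ∈ S)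
    (hX : X ∉ S) : ∀ x ∈ Icc X b, x ∉ S := by
  intro x hx hxS
  have hK : IsCompact (Icc X b ∩ S) := isCompact_Icc.inter_right hS
  obtain ⟨m, ⟨hm1, hm2⟩, hmin⟩ := hK.exists_isLeast ⟨x, hx, hxS⟩
  have hXm : X < m := by
    rcases hm1.1.eq_or_lt with h | h
    · exact absurd (h ▸ hm2) hX
    · exact h
  have hXX : X ∈ Icc X b := ⟨le_rfl, hm1.1.trans hm1.2⟩
  have hsub : Icc X m ⊆ Icc X b := Icc_subset_Icc_right hm1.2
  have hcontra : ∀ x' ∈ Ioo X m, (f x' = g m ∨ g x' = f m) → False := by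
    intro x' hx' h
    have h1 : x' ∈ Icc X b := hsub ⟨hx'.1.le, hx'.2.le⟩
    have h2 := hfg m hm1 x' h1 hm2 h
    exact absurd (hmin ⟨h1, h2⟩) (not_le.2 hx'.2)
  have h1 : f X < f m := mf hXX hm1 hXm
  have h2 : g X < g m := mg hXX hm1 hXm
  rcases lt_trichotomy (g m) (f m) with h | h | h
  · obtain ⟨x', hx', he⟩ := intermediate_value_Ioo hXm.le (hf.mono hsub)
      (show g m ∈ Ioo (f X) (f m) from ⟨by rw [h0]; exact h2, h⟩)
    exact hcontra x' hx' (Or.inl he)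
  · exact hne m ⟨hXm, hm1.2⟩ h.symm
  · obtain ⟨x', hx', he⟩ := intermediate_value_Ioo hXm.le (hg.mono hsub)
      (show f m ∈ Ioo (g X) (g m) from ⟨by rw [← h0]; exact h1, h⟩)
    exact hcontra x' hx' (Or.inr he)

lemma left {f g : ℝ → ℝ} {X b : ℝ} (hf : ContinuousOn f (Icc b X))
    (hg : ContinuousOn g (Icc b X)) (mf : StrictMonoOn f (Icc b X)) (mg : StrictMonoOn g (Icc b X))
    (h0 : f X = g X) (hne : ∀ x ∈ Ico b X, f x ≠ g x) {S : Set ℝ} (hS : IsClosed S)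
    (hfg : ∀ x ∈ Icc b X, ∀ x' ∈ Icc b X, x ∈ S → (f x' = g x ∨ g x' = f x) → x' ∈ S)
    (hX : X ∉ S) : ∀ x ∈ Icc b X, x ∉ S := by
  have hneg : ∀ x ∈ Icc (-X) (-b), -x ∈ Icc b X := fun x hx =>
    ⟨by linarith [hx.2], by linarith [hx.1]⟩
  have key := right (f := fun x => -f (-x)) (g := fun x => -g (-x)) (X := -X) (b := -b)
    (S := {x | -x ∈ S}) ((hf.comp continuous_neg.continuousOn hneg).neg)
    ((hg.comp continuous_neg.continuousOn hneg).neg)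
    (by
      intro x hx y hy hxy
      have := mf (hneg y hy) (hneg x hx) (by linarith)
      simp only
      linarith)
    (by
      intro x hx y hy hxy
      have := mg (hneg y hy) (hneg x hx) (by linarith)
      simp only
      linarith)
    (by simp only [neg_neg, h0])
    (by
      intro x hx h
      refine hne (-x) ⟨by linarith [hx.2], by linarith [hx.1]⟩ ?_
      linarith)
    (hS.preimage continuous_neg)
    (by
      intro x hx x' hx' hxS h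
      refine hfg (-x) (hneg x hx) (-x') (hneg x' hx') hxS ?_
      rcases h with h | h
      · left; linarith
      · right; linarith)
    (by simpa using hX)
  intro x hx hxS
  exact key (-x) ⟨by linarith [hx.2], by linarith [hx.1]⟩ (by simpa using hxS)

end abs

section orbit

/-- the sign -/
noncomputable def sg (k : ℤ) : ℝ := if Even k then 1 else -1

lemma sg_succ (k : ℤ) : sg (k + 1) = -sg k := by
  unfold sg
  by_cases h : Even k
  · rw [if_pos h, if_neg (by rwa [Int.even_add_one, not_not])]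
  · rw [if_neg h, if_pos (by rwa [Int.even_add_one])]; norm_num

lemma sg_zero : sg 0 = 1 := if_pos (by simp)

lemma sg_cases (k : ℤ) : sg k = 1 ∨ sg k = -1 := by
  unfold sg
  split_ifs
  · exact Or.inl rfl
  · exact Or.inr rfl

variable {a c ε : ℝ}

lemma fld_sg (k : ℤ) (p : ℝ × ℝ) : fld a c ε (sg k • p) = sg k • fld a c ε p := by
  rcases sg_cases k with h | h
  · rw [h, one_smul, one_smul]
  · rw [h, neg_one_smul, neg_one_smul, fld_neg]

lemma orbit {f : ℝ → ℝ × ℝ} {T : ℝ} (hT : 0 < T)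
    (hf : ∀ t ∈ Icc 0 T, HasDerivAt f (fld a c ε (f t)) t) (h0 : f T = -f 0)
    (hne : (f 0).2 ≠ 0) : ∃ C ∈ Closed (fld a c ε), f 0 ∈ C ∧ -f 0 ∈ C ∧
      ∀ z ∈ C, ∃ t ∈ Icc 0 T, z = f t ∨ z = -f t := by
  obtain ⟨γ, hγ⟩ : ∃ γ : ℝ → ℝ × ℝ, γ = fun t => sg ⌊t / T⌋ • f (t - (⌊t / T⌋ : ℝ) * T) :=
    ⟨_, rfl⟩
  have hA : ∀ (k : ℤ) (t : ℝ), t ∈ Icc ((k : ℝ) * T) (((k : ℝ) + 1) * T) →
      γ t = sg k • f (t - (k : ℝ) * T) := by
    intro k t ht
    rw [hγ]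
    rcases ht.2.eq_or_lt with h | h
    · have e1 : t / T = ((k + 1 : ℤ) : ℝ) := by
        rw [h]
        push_cast
        field_simp
      have e2 : ⌊t / T⌋ = k + 1 := by rw [e1, Int.floor_intCast]
      simp only [e2]
      have e3 : t - ((k + 1 : ℤ) : ℝ) * T = 0 := by
        rw [h]
        push_cast
        ring
      have e4 : t - (k : ℝ) * T = T := by
        rw [h]
        ring
      rw [e3, e4, h0, sg_succ, neg_smul, smul_neg]
    · have e2 : ⌊t / T⌋ = k := by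
        rw [Int.floor_eq_iff]
        exact ⟨(le_div_iff₀ hT).2 ht.1, (div_lt_iff₀ hT).2 h⟩
      simp only [e2]
  have hB : ∀ (k : ℤ) (t : ℝ), t ∈ Icc ((k : ℝ) * T) (((k : ℝ) + 1) * T) →
      HasDerivWithinAt γ (fld a c ε (γ t)) (Icc ((k : ℝ) * T) (((k : ℝ) + 1) * T)) t := by
    intro k t ht
    have h1 : t - (k : ℝ) * T ∈ Icc 0 T := ⟨by linarith [ht.1], by linarith [ht.2]⟩
    have h2 := (hf _ h1).comp_sub_const t ((k : ℝ) * T)
    have h3 := h2.const_smul (sg k)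
    rw [← fld_sg, ← hA k t ht] at h3
    exact h3.hasDerivWithinAt.congr (fun y hy => hA k y hy) (hA k t ht)
  have hC : ∀ t, HasDerivAt γ (fld a c ε (γ t)) t := by
    intro t
    have hr : HasDerivWithinAt γ (fld a c ε (γ t)) (Ici t) t := by
      have h1 : ((⌊t / T⌋ : ℤ) : ℝ) * T ≤ t := (le_div_iff₀ hT).1 (Int.floor_le _)
      have h2 : t < (((⌊t / T⌋ : ℤ) : ℝ) + 1) * T := (div_lt_iff₀ hT).1 (Int.lt_floor_add_one _)
      exact (hB ⌊t / T⌋ t ⟨h1, h2.le⟩).mono_of_mem_nhdsWithin (Icc_mem_nhdsGE_of_mem ⟨h1, h2⟩)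
    have hl : HasDerivWithinAt γ (fld a c ε (γ t)) (Iic t) t := by
      have e : (((⌈t / T⌉ - 1 : ℤ) : ℝ)) = (⌈t / T⌉ : ℝ) - 1 := by push_cast; ring
      have h1 : ((⌈t / T⌉ - 1 : ℤ) : ℝ) * T < t := by
        rw [e]
        have := Int.ceil_lt_add_one (t / T)
        have h3 : (⌈t / T⌉ : ℝ) - 1 < t / T := by linarith
        exact (lt_div_iff₀ hT).1 h3
      have h2 : t ≤ (((⌈t / T⌉ - 1 : ℤ) : ℝ) + 1) * T := by
        rw [e, sub_add_cancel]
        exact (div_le_iff₀ hT).1 (Int.le_ceil _)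
      exact (hB (⌈t / T⌉ - 1) t ⟨h1.le, h2⟩).mono_of_mem_nhdsWithin
        (Icc_mem_nhdsLE_of_mem ⟨h1, h2⟩)
    have := hl.union hr
    rwa [Iic_union_Ici, hasDerivWithinAt_univ] at this
  have hg0 : γ 0 = f 0 := by
    have := hA 0 0 ⟨by simp, by simp; exact hT.le⟩
    rw [this, sg_zero, one_smul]
    simp
  have hgT : γ T = -f 0 := by
    have := hA 1 T ⟨by simp, by push_cast; nlinarith⟩
    rw [this]
    have e : sg 1 = -1 := by
      have := sg_succ 0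
      rwa [zero_add, sg_zero] at this
    rw [e]
    simp
  refine ⟨range γ, ⟨γ, 2 * T, by linarith, hC, ?_, ⟨T, ?_⟩, rfl⟩, ⟨0, hg0⟩, ⟨T, hgT⟩, ?_⟩
  · intro t
    have e1 : (t + 2 * T) / T = t / T + ((2 : ℤ) : ℝ) := by
      push_cast
      field_simp
    have e2 : ⌊(t + 2 * T) / T⌋ = ⌊t / T⌋ + 2 := by rw [e1, Int.floor_add_intCast]
    rw [hγ]
    simp only [e2]
    have e3 : sg (⌊t / T⌋ + 2) = sg ⌊t / T⌋ := by
      rw [show ⌊t / T⌋ + 2 = (⌊t / T⌋ + 1) + 1 by ring, sg_succ, sg_succ, neg_neg]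
    rw [e3]
    congr 2
    push_cast
    ring
  · rw [hgT, hg0]
    intro h
    have := congrArg Prod.snd h
    rw [Prod.snd_neg] at this
    apply hne
    linarith
  · rintro z ⟨t, rfl⟩
    have h1 : ((⌊t / T⌋ : ℤ) : ℝ) * T ≤ t := (le_div_iff₀ hT).1 (Int.floor_le _)
    have h2 : t < (((⌊t / T⌋ : ℤ) : ℝ) + 1) * T := (div_lt_iff₀ hT).1 (Int.lt_floor_add_one _)
    refine ⟨t - (⌊t / T⌋ : ℝ) * T, ⟨by linarith, by linarith⟩, ?_⟩
    rw [hA ⌊t / T⌋ t ⟨h1, h2.le⟩]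
    rcases sg_cases ⌊t / T⌋ with h | h
    · left
      rw [h, one_smul]
    · right
      rw [h, neg_one_smul]

lemma closed_sub {F : ℝ × ℝ → ℝ × ℝ} (hF : ContDiff ℝ 2 F) {D C : Set (ℝ × ℝ)}
    (hD : D ∈ Closed F) (hC : C ∈ Closed F) {z : ℝ × ℝ} (h1 : z ∈ D) (h2 : z ∈ C) : D ⊆ C := by
  obtain ⟨γ, T, hT, hγ, hp, -, rfl⟩ := hD
  obtain ⟨s, rfl⟩ := h1
  rintro _ ⟨t, rfl⟩
  exact stay hF hC (f := γ) (α := min s t) (β := max s t) (fun u _ => hγ u)
    ⟨min_le_left _ _, le_max_left _ _⟩ ⟨min_le_right _ _, le_max_right _ _⟩ h2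

lemma closed_eq {F : ℝ × ℝ → ℝ × ℝ} (hF : ContDiff ℝ 2 F) {D C : Set (ℝ × ℝ)}
    (hD : D ∈ Closed F) (hC : C ∈ Closed F) {z : ℝ × ℝ} (h1 : z ∈ D) (h2 : z ∈ C) : D = C :=
  Subset.antisymm (closed_sub hF hD hC h1 h2) (closed_sub hF hC hD h2 h1)

end orbit

section main

/-- the flow box -/
lemma flow_box {a c R : ℝ} {Z : ℝ → ℝ × ℝ → ℝ → ℝ × ℝ} {W : ℝ → ℝ × ℝ → ℝ → ℝ}
    (h : Flw a c R Z W) {ε : ℝ} (hε : |ε| < 1) {X r' : ℝ} (hr' : 0 < r') (hX : 0 < X - r')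
    (hb : ‖((0 : ℝ), et X)‖ < R) :
    ∃ ρ, 0 < ρ ∧ ∀ᶠ v in 𝓝 ((0 : ℝ), et X), (∀ s ∈ Icc (-ρ) ρ, ‖Z s v ε‖ < R) ∧
      ∃ s ∈ Icc (-ρ) ρ, ∃ X' ∈ Ioo (X - r') (X + r'), Z s v ε = (0, et X') := by
  have hZc : Continuous fun q : ℝ × (ℝ × ℝ) => Z q.1 q.2 ε := by
    have h1 : Continuous fun q : ℝ × (ℝ × ℝ) => ((q.1, q.2, ε) : ℝ × (ℝ × ℝ) × ℝ) := by fun_prop
    exact h.smZ.continuous.comp h1
  have hJ : et X ∈ Ioo (et (X - r')) (et (X + r')) :=
    ⟨et_strict (mem_Ici.2 hX.le) (mem_Ici.2 (by linarith)) (by linarith),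
      et_strict (mem_Ici.2 (by linarith)) (mem_Ici.2 (by linarith)) (by linarith)⟩
  have hJpos : 0 < et (X - r') := et_pos hX
  have hq0 : Z 0 ((0 : ℝ), et X) ε = (0, et X) := h.zero _ _
  have hev : ∀ᶠ q : ℝ × (ℝ × ℝ) in 𝓝 ((0 : ℝ), ((0 : ℝ), et X)),
      (Z q.1 q.2 ε).2 ∈ Ioo (et (X - r')) (et (X + r')) ∧ ‖Z q.1 q.2 ε‖ < R := by
    have c1 : ContinuousAt (fun q : ℝ × (ℝ × ℝ) => (Z q.1 q.2 ε).2) ((0 : ℝ), ((0 : ℝ), et X)) :=
      (continuous_snd.comp hZc).continuousAt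
    have c2 : ContinuousAt (fun q : ℝ × (ℝ × ℝ) => ‖Z q.1 q.2 ε‖) ((0 : ℝ), ((0 : ℝ), et X)) :=
      (continuous_norm.comp hZc).continuousAt
    refine (c1.eventually (Ioo_mem_nhds ?_ ?_)).and (c2.eventually (gt_mem_nhds ?_))
    · simp only [hq0]; exact hJ.1
    · simp only [hq0]; exact hJ.2
    · simp only [hq0]; exact hb
  obtain ⟨ρ0, hρ0, hball⟩ := Metric.eventually_nhds_iff.1 hev
  have hbox : ∀ s ∈ Icc (-(ρ0 / 2)) (ρ0 / 2), ∀ v ∈ Metric.ball ((0 : ℝ), et X) ρ0,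
      (Z s v ε).2 ∈ Ioo (et (X - r')) (et (X + r')) ∧ ‖Z s v ε‖ < R := by
    intro s hs v hv
    refine hball (y := (s, v)) ?_
    rw [Prod.dist_eq]
    refine max_lt ?_ hv
    rw [Real.dist_eq, sub_zero, abs_lt]
    exact ⟨by linarith [hs.1], by linarith [hs.2]⟩
  have hpb : ((0 : ℝ), et X) ∈ Metric.ball ((0 : ℝ), et X) ρ0 := Metric.mem_ball_self hρ0
  have hmono : StrictMonoOn (fun s => (Z s ((0 : ℝ), et X) ε).1) (Icc (-(ρ0 / 2)) (ρ0 / 2)) := by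
    have hd : ∀ s ∈ Icc (-(ρ0 / 2)) (ρ0 / 2), HasDerivAt (fun s => (Z s ((0 : ℝ), et X) ε).1)
        (Z s ((0 : ℝ), et X) ε).2 s := by
      intro s hs
      have h1 := h.der ((0 : ℝ), et X) ε s (hbox s hs _ hpb).2 hε
      exact (ContinuousLinearMap.fst ℝ ℝ ℝ).hasFDerivAt.comp_hasDerivAt s h1
    apply strictMonoOn_of_deriv_pos (convex_Icc _ _)
    · exact fun s hs => (hd s hs).continuousAt.continuousWithinAt
    · intro s hs
      rw [interior_Icc] at hs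
      rw [(hd s (Ioo_subset_Icc_self hs)).deriv]
      exact hJpos.trans (hbox s (Ioo_subset_Icc_self hs) _ hpb).1.1
  have m0 : (0 : ℝ) ∈ Icc (-(ρ0 / 2)) (ρ0 / 2) := ⟨by linarith, by linarith⟩
  have m1 : ρ0 / 2 ∈ Icc (-(ρ0 / 2)) (ρ0 / 2) := ⟨by linarith, le_rfl⟩
  have m2 : -(ρ0 / 2) ∈ Icc (-(ρ0 / 2)) (ρ0 / 2) := ⟨le_rfl, by linarith⟩
  have p1 : 0 < (Z (ρ0 / 2) ((0 : ℝ), et X) ε).1 := by
    have := hmono m0 m1 (by linarith)
    simp only [hq0] at this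
    exact this
  have p2 : (Z (-(ρ0 / 2)) ((0 : ℝ), et X) ε).1 < 0 := by
    have := hmono m2 m0 (by linarith)
    simp only [hq0] at this
    exact this
  have cs : ∀ s, Continuous fun v : ℝ × ℝ => (Z s v ε).1 := by
    intro s
    have h1 : Continuous fun v : ℝ × ℝ => ((s, v) : ℝ × (ℝ × ℝ)) := by fun_prop
    exact continuous_fst.comp (hZc.comp h1)
  refine ⟨ρ0 / 2, by positivity, ?_⟩
  filter_upwards [(cs (ρ0 / 2)).continuousAt.eventually (lt_mem_nhds p1),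
    (cs (-(ρ0 / 2))).continuousAt.eventually (gt_mem_nhds p2), Metric.ball_mem_nhds _ hρ0]
    with v hv1 hv2 hv3
  refine ⟨fun s hs => (hbox s hs v hv3).2, ?_⟩
  have cv : ContinuousOn (fun s => (Z s v ε).1) (Icc (-(ρ0 / 2)) (ρ0 / 2)) := by
    have h1 : Continuous fun s : ℝ => ((s, v) : ℝ × (ℝ × ℝ)) := by fun_prop
    exact (continuous_fst.comp (hZc.comp h1)).continuousOn
  obtain ⟨s, hs, hs0⟩ := intermediate_value_Icc (by linarith : -(ρ0 / 2) ≤ ρ0 / 2) cv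
    (show (0 : ℝ) ∈ Icc _ _ from ⟨hv2.le, hv1.le⟩)
  obtain ⟨X', hX', hXe⟩ := intermediate_value_Ioo (by linarith : X - r' ≤ X + r')
    et_cont.continuousOn (hbox s hs v hv3).1
  exact ⟨s, hs, X', hX', Prod.ext hs0 hXe.symm⟩

theorem isolated {a c R X₀ : ℝ} {Z : ℝ → ℝ × ℝ → ℝ → ℝ × ℝ} {W : ℝ → ℝ × ℝ → ℝ → ℝ}
    (h : Flw a c R Z W) {τ : ℝ × ℝ → ℝ} {δ : ℝ} (hh : Half a c R X₀ Z W τ δ)
    {ε X r : ℝ} (hε : 0 < ε) (hεδ : ε < δ) (hr : 0 < r) (h1 : X₀ - δ < X - r)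
    (h2 : X + r < X₀ + δ) (hfix : Z (τ (X, ε)) (0, et X) ε = (0, -et X))
    (huniq : ∀ X' ∈ Ioo (X - r) (X + r), X' ≠ X → Z (τ (X', ε)) (0, et X') ε ≠ (0, -et X'))
    (hmono : ∀ X' ∈ Ioo (X - r) (X + r), ∀ X'' ∈ Ioo (X - r) (X + r), X' < X'' →
        (Z (τ (X'', ε)) (0, et X'') ε).2 < (Z (τ (X', ε)) (0, et X') ε).2) :
    ∃ C ∈ Cyc (fld a c ε), (0, et X) ∈ C ∧ ∀ z ∈ C, ∃ t ∈ Icc 0 (τ (X, ε)),
      z = Z t (0, et X) ε ∨ z = -Z t (0, et X) ε := by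
  have hδ1 := hh.hδ1
  have hδ0 := hh.hδ0
  have hε1 : |ε| < 1 := by rw [abs_of_pos hε]; linarith
  have hεI : ε ∈ Ioo (-δ) δ := ⟨by linarith, hεδ⟩
  have hI : ∀ X' ∈ Ioo (X - r) (X + r), X' ∈ Ioo (X₀ - δ) (X₀ + δ) := fun X' hX' =>
    ⟨by linarith [hX'.1], by linarith [hX'.2]⟩
  have hXI : X ∈ Ioo (X - r) (X + r) := ⟨by linarith, by linarith⟩
  have hpos : ∀ X' ∈ Ioo (X - r) (X + r), 0 < X' := fun X' hX' => by
    have := (hI X' hX').1
    linarith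
  have hball : ∀ X' ∈ Ioo (X - r) (X + r), ∀ t ∈ Icc 0 (τ (X', ε)), ‖Z t (0, et X') ε‖ < R :=
    fun X' hX' => hh.ball X' (hI X' hX') ε hεI
  have hτpos : ∀ X' ∈ Ioo (X - r) (X + r), 0 < τ (X', ε) :=
    fun X' hX' => hh.pos X' (hI X' hX') ε hεI
  have hsol : ∀ X' ∈ Ioo (X - r) (X + r), ∀ t ∈ Icc 0 (τ (X', ε)),
      HasDerivAt (fun t => Z t (0, et X') ε) (fld a c ε (Z t (0, et X') ε)) t :=
    fun X' hX' t ht => h.der _ ε t (hball X' hX' t ht) hε1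
  have hT := hτpos X hXI
  have hZ0 : Z 0 (0, et X) ε = (0, et X) := h.zero _ _
  obtain ⟨C, hC, hpC, hnC, hCz⟩ := orbit (f := fun t => Z t (0, et X) ε) hT (hsol X hXI)
    (by
      simp only [hZ0]
      rw [hfix]
      ext <;> simp)
    (by
      simp only [hZ0]
      exact (et_pos (hpos X hXI)).ne')
  simp only [hZ0] at hpC hnC
  have hZc : Continuous fun q : ℝ × (ℝ × ℝ) => Z q.1 q.2 ε := by
    have h1 : Continuous fun q : ℝ × (ℝ × ℝ) => ((q.1, q.2, ε) : ℝ × (ℝ × ℝ) × ℝ) := by fun_prop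
    exact h.smZ.continuous.comp h1
  have hp0 : ‖((0 : ℝ), et X)‖ < R := by
    have := hball X hXI 0 ⟨le_rfl, hT.le⟩
    rwa [hZ0] at this
  obtain ⟨ρ, hρ, hev1⟩ := flow_box h hε1 (half_pos hr) (X := X) (by linarith) hp0
  have hev2 : ∀ᶠ v in 𝓝 ((0 : ℝ), et X), ∀ s ∈ Icc 0 (τ (X, ε)), ‖Z s v ε‖ < R := by
    refine isCompact_Icc.eventually_forall_of_forall_eventually ?_
    intro s hs
    have c2 : ContinuousAt (fun q : (ℝ × ℝ) × ℝ => ‖Z q.2 q.1 ε‖) (((0 : ℝ), et X), s) := by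
      have h1 : Continuous fun q : (ℝ × ℝ) × ℝ => ((q.2, q.1) : ℝ × (ℝ × ℝ)) := by fun_prop
      exact (continuous_norm.comp (hZc.comp h1)).continuousAt
    exact c2.eventually (gt_mem_nhds (hball X hXI s hs))
  obtain ⟨V, hVdef⟩ : ∃ V : Set (ℝ × ℝ), V = {v | ((∀ s ∈ Icc (-ρ) ρ, ‖Z s v ε‖ < R) ∧
      ∃ s ∈ Icc (-ρ) ρ, ∃ X' ∈ Ioo (X - r / 2) (X + r / 2), Z s v ε = (0, et X')) ∧
      ∀ s ∈ Icc 0 (τ (X, ε)), ‖Z s v ε‖ < R} := ⟨_, rfl⟩
  have hpV : ((0 : ℝ), et X) ∈ interior V := by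
    rw [mem_interior_iff_mem_nhds, hVdef]
    exact hev1.and hev2
  obtain ⟨U, hUdef⟩ : ∃ U : Set (ℝ × ℝ), U = ⋃ t ∈ Icc 0 (τ (X, ε)),
      ((fun z => Z (-t) z ε) ⁻¹' (interior V) ∪ (fun z => Z (-t) (-z) ε) ⁻¹' (interior V)) :=
    ⟨_, rfl⟩
  have cZ : ∀ t, Continuous fun z : ℝ × ℝ => Z t z ε := by
    intro t
    have h1 : Continuous fun v : ℝ × ℝ => ((t, v) : ℝ × (ℝ × ℝ)) := by fun_prop
    exact hZc.comp h1
  have hUo : IsOpen U := by
    rw [hUdef]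
    refine isOpen_biUnion fun t _ => ?_
    exact (isOpen_interior.preimage (cZ (-t))).union
      (isOpen_interior.preimage ((cZ (-t)).comp continuous_neg))
  have hinv : ∀ t (z : ℝ × ℝ), Z (-t) (Z t z ε) ε = z := by
    intro t z
    rw [← h.add, neg_add_cancel, h.zero]
  have hinv' : ∀ t (z : ℝ × ℝ), Z t (Z (-t) z ε) ε = z := by
    intro t z
    rw [← h.add, add_neg_cancel, h.zero]
  have hCU : C ⊆ U := by
    intro z hz
    obtain ⟨t, ht, hzt⟩ := hCz z hz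
    rw [hUdef, mem_iUnion₂]
    refine ⟨t, ht, ?_⟩
    rcases hzt with rfl | rfl
    · left
      show Z (-t) (Z t (0, et X) ε) ε ∈ interior V
      rw [hinv]
      exact hpV
    · right
      show Z (-t) (- -Z t (0, et X) ε) ε ∈ interior V
      rw [neg_neg, hinv]
      exact hpV
  refine ⟨C, ⟨hC, U, hUo, hCU, ?_⟩, hpC, fun z hz => hCz z hz⟩
  intro D hD hDU
  -- a point of the section
  have hsec : ∀ w ∈ Dh D, ∀ t ∈ Icc 0 (τ (X, ε)), Z (-t) w ε ∈ interior V →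
      ∃ X' ∈ Ioo (X - r / 2) (X + r / 2), (0, et X') ∈ Dh D := by
    intro w hw t ht hv
    have hvV := interior_subset hv
    rw [hVdef] at hvV
    obtain ⟨⟨hv1, s, hs, X', hX', hZs⟩, hv2⟩ := hvV
    have g1 : Z 0 (Z (-t) w ε) ε ∈ Dh D := by
      refine stayDh hD (f := fun s => Z s (Z (-t) w ε) ε)
        (fun s hs => h.der _ ε s (hv2 s hs) hε1) ht ⟨le_rfl, hT.le⟩ ?_
      show Z t (Z (-t) w ε) ε ∈ Dh D
      rw [hinv']
      exact hw
    have g2 : Z s (Z (-t) w ε) ε ∈ Dh D :=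
      stayDh hD (f := fun s => Z s (Z (-t) w ε) ε) (fun s hs => h.der _ ε s (hv1 s hs) hε1)
        (t₁ := 0) ⟨by linarith, by linarith⟩ hs g1
    refine ⟨X', hX', ?_⟩
    rw [← hZs]
    exact g2
  have hpt : ∃ X' ∈ Ioo (X - r / 2) (X + r / 2), (0, et X') ∈ Dh D := by
    obtain ⟨z, hzD, hzU⟩ := hDU
    rw [hUdef, mem_iUnion₂] at hzU
    obtain ⟨t, ht, hz | hz⟩ := hzU
    · exact hsec z (Or.inl hzD) t ht hz
    · exact hsec (-z) (Or.inr (by rwa [neg_neg])) t ht hz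
  have hgoal : (0, et X) ∈ Dh D := by
    by_contra hnot
    obtain ⟨X', hX', hX'D⟩ := hpt
    obtain ⟨y, hy⟩ : ∃ y : ℝ → ℝ, y = fun x => -(Z (τ (x, ε)) (0, et x) ε).2 := ⟨_, rfl⟩
    have hyI : ∀ x ∈ Ioo (X - r) (X + r), Z (τ (x, ε)) (0, et x) ε = (0, -y x) := by
      intro x hx
      rw [hy]
      refine Prod.ext (hh.hit x (hI x hx) ε hεI) ?_
      simp
    have hyc : ContinuousOn y (Ioo (X - r) (X + r)) := by
      have t1 : ContinuousOn (fun x : ℝ => τ (x, ε)) (Ioo (X - r) (X + r)) := by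
        have t2 : ContinuousOn (fun x : ℝ => ((x, ε) : ℝ × ℝ)) (Ioo (X - r) (X + r)) := by
          fun_prop
        exact hh.smooth.continuousOn.comp t2 fun x hx => ⟨hI x hx, hεI⟩
      have t3 : ContinuousOn (fun x : ℝ => ((τ (x, ε), ((0 : ℝ), et x)) : ℝ × (ℝ × ℝ)))
          (Ioo (X - r) (X + r)) :=
        t1.prodMk (continuous_const.prodMk et_cont).continuousOn
      have t4 : ContinuousOn (fun x : ℝ => Z (τ (x, ε)) (0, et x) ε) (Ioo (X - r) (X + r)) :=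
        hZc.comp_continuousOn t3
      rw [hy]
      exact (continuous_snd.comp_continuousOn t4).neg
    have hym : StrictMonoOn y (Ioo (X - r) (X + r)) := by
      intro x hx x' hx' hxx
      have := hmono x hx x' hx' hxx
      rw [hy]
      simp only
      linarith
    have hem : StrictMonoOn et (Ioo (X - r) (X + r)) :=
      et_strict.mono fun x hx => mem_Ici.2 (hpos x hx).le
    have h0 : et X = y X := by
      have := hyI X hXI
      rw [hfix] at this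
      have := congrArg Prod.snd this
      simp only at this
      linarith
    have hne : ∀ x ∈ Ioo (X - r) (X + r), x ≠ X → et x ≠ y x := by
      intro x hx hxX he
      apply huniq x hx hxX
      rw [hyI x hx, he]
    have hScl : IsClosed {x : ℝ | ((0 : ℝ), et x) ∈ Dh D} :=
      (Dh_closed hD).preimage (continuous_const.prodMk et_cont)
    have hneg : ∀ u : ℝ, -((0 : ℝ), u) = ((0 : ℝ), -u) := by
      intro u
      ext <;> simp
    have hfg : ∀ x ∈ Ioo (X - r) (X + r), ∀ x' ∈ Ioo (X - r) (X + r),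
        x ∈ {x : ℝ | ((0 : ℝ), et x) ∈ Dh D} → (et x' = y x ∨ y x' = et x) →
        x' ∈ {x : ℝ | ((0 : ℝ), et x) ∈ Dh D} := by
      intro x hx x' hx' hxS hor
      have hxS' : ((0 : ℝ), et x) ∈ Dh D := hxS
      show ((0 : ℝ), et x') ∈ Dh D
      rcases hor with he | he
      · have g1 : Z (τ (x, ε)) (0, et x) ε ∈ Dh D := by
          refine stayDh hD (f := fun s => Z s (0, et x) ε) (hsol x hx) (t₁ := 0)
            ⟨le_rfl, (hτpos x hx).le⟩ ⟨(hτpos x hx).le, le_rfl⟩ ?_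
          show Z 0 (0, et x) ε ∈ Dh D
          rw [h.zero]
          exact hxS'
        rw [hyI x hx] at g1
        have g2 := Dh_neg g1
        rw [hneg, neg_neg, ← he] at g2
        exact g2
      · have g1 := Dh_neg hxS'
        rw [hneg, ← he, ← hyI x' hx'] at g1
        have g2 : Z 0 (0, et x') ε ∈ Dh D :=
          stayDh hD (f := fun s => Z s (0, et x') ε) (hsol x' hx') (t₁ := τ (x', ε))
            ⟨(hτpos x' hx').le, le_rfl⟩ ⟨le_rfl, (hτpos x' hx').le⟩ g1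
        rw [h.zero] at g2
        exact g2
    rcases le_total X X' with hle | hle
    · have hs : Icc X X' ⊆ Ioo (X - r) (X + r) := fun x hx =>
        ⟨by linarith [hx.1], by linarith [hx.2, hX'.2]⟩
      exact right (f := et) (g := y) et_cont.continuousOn (hyc.mono hs) (hem.mono hs)
        (hym.mono hs) h0 (fun x hx => hne x (hs (Ioc_subset_Icc_self hx)) hx.1.ne') hScl
        (fun x hx x' hx' => hfg x (hs hx) x' (hs hx')) hnot X' ⟨hle, le_rfl⟩ hX'D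
    · have hs : Icc X' X ⊆ Ioo (X - r) (X + r) := fun x hx =>
        ⟨by linarith [hx.1, hX'.1], by linarith [hx.2]⟩
      exact left (f := et) (g := y) et_cont.continuousOn (hyc.mono hs) (hem.mono hs)
        (hym.mono hs) h0 (fun x hx => hne x (hs (Ico_subset_Icc_self hx)) hx.2.ne) hScl
        (fun x hx x' hx' => hfg x (hs hx) x' (hs hx')) hnot X' ⟨le_rfl, hle⟩ hX'D
  rcases hgoal with hg | hg
  · exact closed_eq (fld_smooth a c ε) hD hC hg hpC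
  · exact closed_eq (fld_smooth a c ε) hD hC hg hnC

end main

end Pool.Agent.W612.HC
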