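import Pool.Agent.W988.RA.Defs

/-! Project RA (owner helper988), part RA-KH: fourth moment and Khintchine's inequality. -/

set_option autoImplicit false

open Pool.Agent.W988.RA

namespace Pool.Agent.W612.RA_KH

theorem av_succ {n : ℕ} (f : (Fin (n + 1) → Bool) → ℝ) :
    av f = (av (fun ε : Fin n → Bool => f (Fin.cons true ε)) +
      av (fun ε : Fin n → Bool => f (Fin.cons false ε))) / 2 := by
  have h1 := (Fin.consEquiv (fun _ : Fin (n + 1) => Bool)).sum_comp f
  rw [Fintype.sum_prod_type, Fintype.sum_bool] at h1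
  unfold av
  rw [← h1, pow_succ]
  have h2 : (2 : ℝ) ^ n ≠ 0 := by positivity
  field_simp
  rfl

theorem av_add {n : ℕ} (f g : (Fin n → Bool) → ℝ) :
    av (fun ε => f ε + g ε) = av f + av g := by
  unfold av
  rw [Finset.sum_add_distrib, add_div]

theorem av_mul {n : ℕ} (c : ℝ) (f : (Fin n → Bool) → ℝ) :
    av (fun ε => c * f ε) = c * av f := by
  unfold av
  rw [← Finset.mul_sum, mul_div_assoc]

theorem av_const {n : ℕ} (c : ℝ) : av (fun _ : Fin n → Bool => c) = c := by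
  unfold av
  rw [Finset.sum_const, Finset.card_univ, Fintype.card_fun, Fintype.card_bool, Fintype.card_fin,
    nsmul_eq_mul]
  push_cast
  field_simp

theorem av_mono {n : ℕ} {f g : (Fin n → Bool) → ℝ} (h : ∀ ε, f ε ≤ g ε) : av f ≤ av g := by
  unfold av
  exact div_le_div_of_nonneg_right (Finset.sum_le_sum fun ε _ => h ε) (by positivity)

theorem dt_cons {n : ℕ} (b : Bool) (ε : Fin n → Bool) (x : Fin (n + 1) → ℝ) :
    dt (Fin.cons b ε : Fin (n + 1) → Bool) x =
      (if b then 1 else -1) * x 0 + dt ε (fun k => x k.succ) := by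
  unfold dt
  rw [Fin.sum_univ_succ]
  rfl

theorem dt_true {n : ℕ} (ε : Fin n → Bool) (x : Fin (n + 1) → ℝ) :
    dt (Fin.cons true ε : Fin (n + 1) → Bool) x = x 0 + dt ε (fun k => x k.succ) := by
  rw [dt_cons, if_pos rfl, one_mul]

theorem dt_false {n : ℕ} (ε : Fin n → Bool) (x : Fin (n + 1) → ℝ) :
    dt (Fin.cons false ε : Fin (n + 1) → Bool) x = -x 0 + dt ε (fun k => x k.succ) := by
  rw [dt_cons, if_neg (by decide), neg_one_mul]

theorem m2 (n : ℕ) : ∀ x : Fin n → ℝ, av (fun ε => (dt ε x) ^ 2) = ∑ k, x k ^ 2 := by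
  induction n with
  | zero =>
    intro x
    simp [av, dt]
  | succ n ih =>
    intro x
    rw [av_succ, Fin.sum_univ_succ, ← ih (fun k => x k.succ)]
    simp only [dt_true, dt_false]
    have e1 : av (fun ε : Fin n → Bool => (x 0 +
        dt ε fun k => x k.succ) ^ 2) + av (fun ε : Fin n → Bool =>
        (-x 0 + dt ε fun k => x k.succ) ^ 2) =
        2 * (x 0 ^ 2 + av fun ε : Fin n → Bool => (dt ε fun k => x k.succ) ^ 2) := by
      rw [← av_add, mul_add, ← av_mul, ← av_const (n := n) (2 * x 0 ^ 2), ← av_add]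
      congr 1
      funext ε
      ring
    rw [e1]
    ring

theorem m4 : S_M4 := by
  intro n
  induction n with
  | zero =>
    intro x
    simp [av, dt]
  | succ n ih =>
    intro x
    have h2 := m2 n (fun k => x k.succ)
    have h4 := ih (fun k => x k.succ)
    rw [av_succ, Fin.sum_univ_succ]
    simp only [dt_true, dt_false]
    have e1 : av (fun ε : Fin n → Bool => (x 0 +
        dt ε fun k => x k.succ) ^ 4) + av (fun ε : Fin n → Bool =>
        (-x 0 + dt ε fun k => x k.succ) ^ 4) =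
        2 * (x 0 ^ 4 + 6 * x 0 ^ 2 * (av fun ε : Fin n → Bool => (dt ε fun k => x k.succ) ^ 2) +
          av fun ε : Fin n → Bool => (dt ε fun k => x k.succ) ^ 4) := by
      rw [← av_add, ← av_mul, ← av_const (n := n) (x 0 ^ 4), ← av_add, ← av_add, ← av_mul]
      congr 1
      funext ε
      ring
    rw [e1, h2]
    have hS : 0 ≤ ∑ k : Fin n, x k.succ ^ 2 := Finset.sum_nonneg fun k _ => sq_nonneg _
    nlinarith [sq_nonneg (x 0 ^ 2), mul_nonneg (sq_nonneg (x 0)) hS]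

theorem kh : S_KH := by
  intro n x
  obtain ⟨S, hS⟩ : ∃ S, S = ∑ k, x k ^ 2 := ⟨_, rfl⟩
  obtain ⟨A, hA⟩ : ∃ A, A = av fun ε : Fin n → Bool => |dt ε x| := ⟨_, rfl⟩
  rw [← hS, ← hA]
  have hS0 : 0 ≤ S := by
    rw [hS]
    exact Finset.sum_nonneg fun k _ => sq_nonneg _
  rcases hS0.eq_or_lt with h0 | h0
  · rw [← h0]
    positivity
  obtain ⟨w, hw⟩ : ∃ w, w = Real.sqrt (3 * S) := ⟨_, rfl⟩
  have hw2 : w ^ 2 = 3 * S := by
    rw [hw]
    exact Real.sq_sqrt (by positivity)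
  have hwp : 0 < w := by
    rw [hw]
    exact Real.sqrt_pos.2 (by positivity)
  have h1 : ∀ ε : Fin n → Bool, 3 * w ^ 2 * (dt ε x) ^ 2 ≤ (dt ε x) ^ 4 + 2 * w ^ 3 * |dt ε x| := by
    intro ε
    obtain ⟨y, hy⟩ : ∃ y, y = |dt ε x| := ⟨_, rfl⟩
    have hy0 : 0 ≤ y := by
      rw [hy]
      exact abs_nonneg _
    have e2 : (dt ε x) ^ 2 = y ^ 2 := by rw [hy, sq_abs]
    have e4 : (dt ε x) ^ 4 = y ^ 4 := by
      rw [show (dt ε x) ^ 4 = ((dt ε x) ^ 2) ^ 2 by ring, e2]
      ring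
    rw [e2, e4, ← hy]
    have h2 : 0 ≤ y * ((y - w) ^ 2 * (y + 2 * w)) := by positivity
    nlinarith
  have h2 := av_mono h1
  rw [av_mul, av_add, av_mul, m2 n x, ← hS, ← hA] at h2
  have h3 := m4 n x
  rw [← hS] at h3
  have h4 : 3 * w ^ 2 * S ≤ 3 * S ^ 2 + 2 * w ^ 3 * A := by linarith
  have h5 : w ^ 3 = 3 * S * w := by rw [pow_succ, hw2]
  rw [hw2, h5] at h4
  have h6 : S * S ≤ S * (w * A) := by nlinarith
  have h7 : S ≤ w * A := le_of_mul_le_mul_left h6 h0
  have h8 : S ^ 2 ≤ (w * A) ^ 2 := pow_le_pow_left₀ hS0 h7 2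
  rw [mul_pow, hw2] at h8
  have h9 : S * S ≤ S * (3 * A ^ 2) := by nlinarith
  exact le_of_mul_le_mul_left h9 h0

/-- both parts -/
theorem result : S_M4 ∧ S_KH := ⟨m4, kh⟩

end Pool.Agent.W612.RA_KH
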